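import Mathlib
import Pool.Agent.H788R3.Cor2.Op2

/-!
The solution operator of P. Jones type on domains over the half plane with a family of holomorphic
retractions onto the slices `w = ζ` (generalises `Pool.Agent.H720R2.HP.Op`).
-/

set_option autoImplicit false
set_option linter.unusedSectionVars false

open MeasureTheory Metric Set Filter Topology Complex
open scoped ContDiff

namespace Pool.Agent.H788R3.Cor3

open Pool.Agent.H720R2 Pool.Agent.H720R2.HP Pool.Agent.H788R3.Cor2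

variable {E : Type} [NormedAddCommGroup E] [NormedSpace ℂ E] [FiniteDimensional ℂ E]

section

variable {D : Set (ℂ × E)} {Λ : ℂ → ℂ × E → E}
variable {ι : Type} {S : Finset ι} {a : ι → ℂ} {R : ι → Set ℂ} {Cp : ℝ}

/-- the kernel for a fixed `y` -/
noncomputable def BQ (D : Set (ℂ × E)) (Λ : ℂ → ℂ × E → E) (S : Finset ι) (a : ι → ℂ) (R : ι → Set ℂ) (μ : ℂ → ℂ) (G : ℂ × E → ℂ)
    (y : E) (ζ w : ℂ) : ℂ :=
  ∑ k ∈ S, ((R k) ×ˢ {w : ℂ | (w, y) ∈ D}).indicator
    (fun p : ℂ × ℂ => μ p.1 * G (p.1, Λ p.1 (p.2, y)) * Wk S a k p.1 p.2) (ζ, w)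

theorem BQ_eq (hF : Fam S a R Cp) {μ : ℂ → ℂ} {G : ℂ × E → ℂ} {y : E} {ζ w : ℂ} {k : ι}
    (hk : k ∈ S) (hζ : ζ ∈ R k) (hw : (w, y) ∈ D) :
    BQ D Λ S a R μ G y ζ w = μ ζ * G (ζ, Λ ζ (w, y)) * Wk S a k ζ w := by
  unfold BQ
  rw [Finset.sum_eq_single_of_mem k hk]
  · rw [indicator_of_mem]
    exact ⟨hζ, hw⟩
  · intro j hj hjk
    rw [indicator_of_notMem]
    intro h
    exact (Set.disjoint_left.1 (hF.hd j hj k hk hjk)) h.1 hζ

theorem BQ_zero {μ : ℂ → ℂ} {G : ℂ × E → ℂ} {y : E} {ζ w : ℂ} (h : ∀ k ∈ S, ζ ∉ R k) :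
    BQ D Λ S a R μ G y ζ w = 0 := by
  unfold BQ
  refine Finset.sum_eq_zero (fun k hk => ?_)
  rw [indicator_of_notMem]
  intro h'
  exact h k hk h'.1

theorem BQ_zero' {μ : ℂ → ℂ} {G : ℂ × E → ℂ} {y : E} {ζ w : ℂ} (h : ¬ (w, y) ∈ D) :
    BQ D Λ S a R μ G y ζ w = 0 := by
  unfold BQ
  refine Finset.sum_eq_zero (fun k hk => ?_)
  rw [indicator_of_notMem]
  intro h'
  exact h h'.2

theorem BQ_meas (hr : Retr D Λ) (hF : Fam S a R Cp) {μ : ℂ → ℂ} (hμ : Measurable μ) {G : ℂ × E → ℂ}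
    {O : Set ℂ} (hO : IsOpen O) (hμO : ∀ ζ, μ ζ ≠ 0 → ζ ∈ O)
    (hG : ContinuousOn G {p | p ∈ D ∧ p.1 ∈ O}) (y : E) :
    Measurable (fun p : ℂ × ℂ => BQ D Λ S a R μ G y p.1 p.2) := by
  classical
  set T : Set (ℂ × ℂ) := {p | 0 < p.1.im ∧ (p.2, y) ∈ D} with hT
  have hTo : IsOpen T := by
    refine IsOpen.inter ?_ ?_
    · exact isOpen_lt continuous_const (Complex.continuous_im.comp continuous_fst)
    · exact hr.op.preimage (by fun_prop : Continuous fun p : ℂ × ℂ => (p.2, y))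
  have hTO : IsOpen (T ∩ {p | p.1 ∈ O}) := hTo.inter (hO.preimage continuous_fst)
  have hc1 : ContinuousOn (fun p : ℂ × ℂ => G (p.1, Λ p.1 (p.2, y))) (T ∩ {p | p.1 ∈ O}) := by
    refine hG.comp ?_ ?_
    · exact continuousOn_fst.prodMk ((hr.cont y).mono inter_subset_left)
    · intro p hp
      exact ⟨hr.mem _ hp.1.1 _ hp.1.2, hp.2⟩
  have hm1 : Measurable ((T ∩ {p | p.1 ∈ O}).indicator
      (fun p : ℂ × ℂ => G (p.1, Λ p.1 (p.2, y)))) := by
    rw [← Set.piecewise_eq_indicator]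
    exact ContinuousOn.measurable_piecewise hc1 continuousOn_const hTO.measurableSet
  unfold BQ
  refine Finset.measurable_fun_sum _ (fun k hk => ?_)
  have hm2 : Measurable (T.indicator (fun p : ℂ × ℂ => Wk S a k p.1 p.2)) := by
    rw [← Set.piecewise_eq_indicator]
    refine ContinuousOn.measurable_piecewise ?_ continuousOn_const hTo.measurableSet
    refine (Wk_cont hF hk).mono (fun p hp => ⟨hp.1, hr.im _ hp.2⟩)
  have hΩ : MeasurableSet {w : ℂ | (w, y) ∈ D} := (slice_open hr y).measurableSet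
  have heq : (fun p : ℂ × ℂ => ((R k) ×ˢ {w : ℂ | (w, y) ∈ D}).indicator
      (fun p : ℂ × ℂ => μ p.1 * G (p.1, Λ p.1 (p.2, y)) * Wk S a k p.1 p.2) (p.1, p.2)) =
      ((R k) ×ˢ {w : ℂ | (w, y) ∈ D}).indicator
      (fun p : ℂ × ℂ => μ p.1 * ((T ∩ {p | p.1 ∈ O}).indicator
        (fun p : ℂ × ℂ => G (p.1, Λ p.1 (p.2, y))) p) *
        T.indicator (fun p : ℂ × ℂ => Wk S a k p.1 p.2) p) := by
    funext p
    by_cases hp : p ∈ (R k) ×ˢ {w : ℂ | (w, y) ∈ D}
    · have hpT : p ∈ T := ⟨(hF.hR k hk _ hp.1).1, hp.2⟩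
      rw [indicator_of_mem hp, indicator_of_mem (a := (p.1, p.2)) hp]
      by_cases hμp : μ p.1 = 0
      · simp only [hμp, zero_mul]
      · have hpTO : p ∈ T ∩ {p | p.1 ∈ O} := ⟨hpT, hμO _ hμp⟩
        rw [indicator_of_mem hpTO, indicator_of_mem hpT]
    · rw [indicator_of_notMem hp, indicator_of_notMem (a := (p.1, p.2)) hp]
  rw [heq]
  refine Measurable.indicator ?_ ((hF.hm k hk).prod hΩ)
  exact ((hμ.comp measurable_fst).mul hm1).mul hm2

/-- hypotheses on the density and the denominator -/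
structure Den3 (D : Set (ℂ × E)) (S : Finset ι) (a : ι → ℂ) (R : ι → Set ℂ) (μ : ℂ → ℂ) (K : ℝ)
    (O : Set ℂ) (G : ℂ × E → ℂ) (M : ℝ) : Prop where
  hμ : Measurable μ
  hK0 : 0 ≤ K
  hK : ∀ k ∈ S, ∀ ζ ∈ R k, ‖μ ζ‖ ≤ K / (a k).im
  h0 : ∀ ζ, (∀ k ∈ S, ζ ∉ R k) → μ ζ = 0
  hO : IsOpen O
  hμO : ∀ ζ, μ ζ ≠ 0 → ζ ∈ O
  hG : DifferentiableOn ℂ G {p | p ∈ D ∧ p.1 ∈ O}
  hM0 : 0 ≤ M
  hM : ∀ ζ, μ ζ ≠ 0 → ∀ y : E, (ζ, y) ∈ D → ‖G (ζ, y)‖ ≤ M

theorem BQ_le (hr : Retr D Λ) (hF : Fam S a R Cp) {μ : ℂ → ℂ} {K M : ℝ} {O : Set ℂ} {G : ℂ × E → ℂ}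
    (hD : Den3 D S a R μ K O G M) {y : E} {ζ w : ℂ} {k : ι} (hk : k ∈ S) (hζ : ζ ∈ R k)
    (hw : (w, y) ∈ D) :
    ‖BQ D Λ S a R μ G y ζ w‖ ≤ K / (a k).im * M * ‖Wk S a k ζ w‖ := by
  rw [BQ_eq hF hk hζ hw, norm_mul, norm_mul]
  have hak := hF.ha k hk
  have hK0 := hD.hK0
  have hM0 := hD.hM0
  by_cases h : μ ζ = 0
  · rw [h, norm_zero, zero_mul, zero_mul]
    positivity
  · have h1 := hD.hM ζ h (Λ ζ (w, y)) (hr.mem _ (hF.hR k hk ζ hζ).1 (w, y) hw)
    gcongr
    exact hD.hK k hk ζ hζ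

theorem BQ_bound (hr : Retr D Λ) (hF : Fam S a R Cp) {μ : ℂ → ℂ} {K M : ℝ} {O : Set ℂ} {G : ℂ × E → ℂ}
    (hD : Den3 D S a R μ K O G M) : ∃ ρ M' : ℝ, 0 ≤ ρ ∧ 0 ≤ M' ∧ ∀ (y : E) (ζ w : ℂ),
      ‖BQ D Λ S a R μ G y ζ w‖ ≤ (ball (0 : ℂ) ρ).indicator (fun _ => M') ζ := by
  have hK0 := hD.hK0
  have hM0 := hD.hM0
  refine ⟨∑ k ∈ S, (‖a k‖ + 5 * |(a k).im|), ∑ k ∈ S, K / |(a k).im| * M * (6 * Real.exp Cp),
    Finset.sum_nonneg fun k _ => by positivity, Finset.sum_nonneg fun k _ => by positivity,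
    fun y ζ w => ?_⟩
  have hnn : 0 ≤ ∑ k ∈ S, K / |(a k).im| * M * (6 * Real.exp Cp) :=
    Finset.sum_nonneg fun k _ => by positivity
  by_cases h : ∀ k ∈ S, ζ ∉ R k
  · rw [BQ_zero h, norm_zero]
    exact indicator_nonneg (fun _ _ => hnn) _
  · push Not at h
    obtain ⟨k, hk, hζ⟩ := h
    have hak := hF.ha k hk
    have hmem : ζ ∈ ball (0 : ℂ) (∑ k ∈ S, (‖a k‖ + 5 * |(a k).im|)) := by
      rw [mem_ball_zero_iff]
      have h1 := (hF.hR k hk ζ hζ).2
      have h2 := norm_add_le (ζ - a k) (a k)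
      rw [sub_add_cancel] at h2
      have h3 : ‖a k‖ + 5 * |(a k).im| ≤ ∑ k ∈ S, (‖a k‖ + 5 * |(a k).im|) :=
        Finset.single_le_sum (f := fun k => ‖a k‖ + 5 * |(a k).im|)
          (fun j _ => by positivity) hk
      rw [abs_of_pos hak] at h3
      linarith
    rw [indicator_of_mem hmem]
    by_cases hw : (w, y) ∈ D
    · refine (BQ_le hr hF hD hk hζ hw).trans ?_
      have h4 := Wk_le' hF hk hζ (hr.im _ hw)
      have h5 : K / |(a k).im| * M * (6 * Real.exp Cp) ≤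
          ∑ k ∈ S, K / |(a k).im| * M * (6 * Real.exp Cp) :=
        Finset.single_le_sum (f := fun k => K / |(a k).im| * M * (6 * Real.exp Cp))
          (fun j _ => by positivity) hk
      rw [abs_of_pos hak] at h5
      refine le_trans ?_ h5
      gcongr
    · rw [BQ_zero' hw, norm_zero]
      exact hnn

theorem BQ_diff (hr : Retr D Λ) (hF : Fam S a R Cp) {μ : ℂ → ℂ} {K M : ℝ} {O : Set ℂ} {G : ℂ × E → ℂ}
    (hD : Den3 D S a R μ K O G M) (ζ : ℂ) {w : ℂ} {y : E} (hp : (w, y) ∈ D) :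
    DifferentiableAt ℂ (fun p : ℂ × E => BQ D Λ S a R μ G p.2 ζ p.1) (w, y) := by
  by_cases h : ∀ k ∈ S, ζ ∉ R k
  · have h1 : (fun p : ℂ × E => BQ D Λ S a R μ G p.2 ζ p.1) = fun _ => 0 := by
      funext p
      exact BQ_zero h
    rw [h1]
    exact differentiableAt_const _
  · push Not at h
    obtain ⟨k, hk, hζ⟩ := h
    have hζim := (hF.hR k hk ζ hζ).1
    have hev : (fun p : ℂ × E => BQ D Λ S a R μ G p.2 ζ p.1) =ᶠ[𝓝 (w, y)]
        fun p => μ ζ * G (ζ, Λ ζ p) * Wk S a k ζ p.1 := by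
      filter_upwards [hr.op.mem_nhds hp] with p hp'
      exact BQ_eq hF hk hζ hp'
    refine DifferentiableAt.congr_of_eventuallyEq ?_ hev
    by_cases hμ : μ ζ = 0
    · simp only [hμ, zero_mul]
      exact differentiableAt_const _
    · have hw : 0 < w.im := hr.im _ hp
      have hL := hr.mem ζ hζim _ hp
      have h2 : DifferentiableAt ℂ (fun p : ℂ × E => (ζ, Λ ζ p)) (w, y) := by
        exact DifferentiableAt.prodMk (differentiableAt_const _) (hr.diff ζ hζim _ hp)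
      have h4 : DifferentiableAt ℂ G (ζ, Λ ζ (w, y)) :=
        (hD.hG _ ⟨hL, hD.hμO _ hμ⟩).differentiableAt
          ((hr.op.inter (hD.hO.preimage continuous_fst)).mem_nhds ⟨hL, hD.hμO _ hμ⟩)
      have h5 : DifferentiableAt ℂ (fun p : ℂ × E => G (ζ, Λ ζ p)) (w, y) :=
        DifferentiableAt.comp (w, y) h4 h2
      have h6 : DifferentiableAt ℂ (fun p : ℂ × E => Wk S a k ζ p.1) (w, y) :=
        DifferentiableAt.comp (f := fun p : ℂ × E => p.1) (w, y) (Wk_diff hF hk ζ hw)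
          differentiableAt_fst
      exact (h5.const_mul _).fun_mul h6

/-- **The solution operator.** -/
theorem jones_op3 (hr : Retr D Λ) (hF : Fam S a R Cp) {μ : ℂ → ℂ} {K M : ℝ} {O : Set ℂ} {G : ℂ × E → ℂ}
    (hD : Den3 D S a R μ K O G M) : ∃ V : ℂ × E → ℂ,
      (∀ p ∈ D, ‖V p‖ ≤ 2160 * Real.exp Cp * K * M) ∧
      (∀ y : E, WD {w : ℂ | (w, y) ∈ D} (fun w => V (w, y)) (fun w => μ w * G (w, y))) ∧
      ∀ w : ℂ, DifferentiableOn ℂ (fun y : E => V (w, y)) {y | (w, y) ∈ D} := by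
  classical
  obtain ⟨ρ, M', hρ, hM', hb⟩ := BQ_bound hr hF hD
  have hK0 := hD.hK0
  have hM0 := hD.hM0
  have hmeas := fun y => BQ_meas hr hF hD.hμ hD.hO hD.hμO hD.hG.continuousOn y
  have hopen : ∀ y : E, IsOpen {w : ℂ | (w, y) ∈ D} := fun y => slice_open hr y
  refine ⟨fun p => CT (BQ D Λ S a R μ G p.2) p.1, ?_, ?_, ?_⟩
  · rintro ⟨w, y⟩ hp
    have hw : 0 < w.im := hr.im _ hp
    set g : ι → ℝ := fun k => al (a k) w *
      Real.exp (-∑ j ∈ S.filter (fun j => (a j).im ≤ (a k).im), al (a j) w) with hg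
    set c : ι → ℝ := fun k => K / (a k).im * M * (6 * (a k).im / ‖w - starRingEnd ℂ (a k)‖ *
      (Real.exp Cp *
        Real.exp (-∑ j ∈ S.filter (fun j => (a j).im ≤ (a k).im), al (a j) w))) with hc
    have hc0 : ∀ k ∈ S, 0 ≤ c k := by
      intro k hk
      have := hF.ha k hk
      simp only [hc]
      positivity
    have hint : ∀ k, Integrable ((ball (a k) (5 * (a k).im)).indicator
        (fun ζ => c k * ‖w - ζ‖⁻¹)) := by
      intro k
      refine (integrable_indicator_iff measurableSet_ball).2 ?_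
      refine Integrable.const_mul ?_ _
      refine (inv_ball_int w (‖w - a k‖ + 5 * (a k).im)).mono_set (ball_subset_ball' ?_)
      rw [dist_comm, dist_eq_norm]
      linarith
    have h1 : ∀ ζ, ‖BQ D Λ S a R μ G y ζ w / (w - ζ)‖ ≤
        ∑ k ∈ S, (ball (a k) (5 * (a k).im)).indicator (fun ζ => c k * ‖w - ζ‖⁻¹) ζ := by
      intro ζ
      have hnn : ∀ k ∈ S, 0 ≤ (ball (a k) (5 * (a k).im)).indicator
          (fun ζ => c k * ‖w - ζ‖⁻¹) ζ := fun k hk =>
        indicator_nonneg (fun _ _ => mul_nonneg (hc0 k hk) (by positivity)) _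
      by_cases h : ∀ k ∈ S, ζ ∉ R k
      · rw [BQ_zero h, zero_div, norm_zero]
        exact Finset.sum_nonneg hnn
      · push Not at h
        obtain ⟨k, hk, hζ⟩ := h
        refine le_trans ?_ (Finset.single_le_sum hnn hk)
        have hak := hF.ha k hk
        have hmem : ζ ∈ ball (a k) (5 * (a k).im) := by
          rw [mem_ball, dist_eq_norm]
          have := (hF.hR k hk ζ hζ).2
          linarith
        rw [indicator_of_mem hmem, norm_div, div_eq_mul_inv]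
        refine mul_le_mul_of_nonneg_right ?_ (by positivity)
        refine (BQ_le hr hF hD hk hζ hp).trans ?_
        simp only [hc]
        have := Wk_le hF hk hζ hw
        gcongr
    have h2 : ‖∫ ζ, BQ D Λ S a R μ G y ζ w / (w - ζ)‖ ≤
        ∑ k ∈ S, c k * (360 * Real.pi * ((a k).im ^ 2 / ‖w - starRingEnd ℂ (a k)‖)) := by
      refine (norm_integral_le_of_norm_le (integrable_finsetSum S (fun k _ => hint k))
        (Eventually.of_forall h1)).trans ?_
      rw [integral_finsetSum S (fun k _ => hint k)]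
      refine Finset.sum_le_sum (fun k hk => ?_)
      rw [integral_indicator measurableSet_ball, integral_const_mul]
      exact mul_le_mul_of_nonneg_left (ball_int (hF.ha k hk) hw) (hc0 k hk)
    have h3 : ∀ k ∈ S, c k * (360 * Real.pi * ((a k).im ^ 2 / ‖w - starRingEnd ℂ (a k)‖)) =
        Real.pi * (2160 * Real.exp Cp * K * M) * g k := by
      intro k hk
      have hak := hF.ha k hk
      have hdk := den_pos hak hw.le
      simp only [hc, hg, al]
      field_simp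
      ring
    rw [Finset.sum_congr rfl h3, ← Finset.mul_sum] at h2
    have h4 : ∑ k ∈ S, g k ≤ 1 := by
      have h5 := Cor.exp_sum_le S (fun k => -(a k).im) (fun k => al (a k) w)
        (fun k _ => al_nonneg _ _)
      have h6 : ∀ k, S.filter (fun j => -(a k).im ≤ -(a j).im) =
          S.filter (fun j => (a j).im ≤ (a k).im) := by
        intro k
        refine Finset.filter_congr (fun j _ => ?_)
        exact neg_le_neg_iff
      simp only [h6] at h5
      refine h5.trans ?_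
      have := Real.exp_pos (-∑ j ∈ S, al (a j) w)
      linarith
    simp only [CT]
    rw [norm_mul, norm_div, norm_one, Complex.norm_real, Real.norm_of_nonneg Real.pi_pos.le]
    have hpi := Real.pi_pos
    calc 1 / Real.pi * ‖∫ ζ, BQ D Λ S a R μ G y ζ w / (w - ζ)‖
        ≤ 1 / Real.pi * (Real.pi * (2160 * Real.exp Cp * K * M) * 1) := by
          gcongr
          refine h2.trans ?_
          gcongr
      _ = _ := by field_simp
  · intro y
    have h1 := CT_weak (hopen y) hρ hM' (hmeas y) (fun ζ w hw => by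
      have h2 := BQ_diff hr hF hD ζ (w := w) (y := y) hw
      have h3 : DifferentiableAt ℂ (fun w : ℂ => (w, y)) w :=
        differentiableAt_id.prodMk (differentiableAt_const _)
      exact (DifferentiableAt.comp (g := fun p : ℂ × E => BQ D Λ S a R μ G p.2 ζ p.1) w h2
        h3).differentiableWithinAt) (fun ζ w => hb y ζ w)
    refine h1.congr (hopen y) (fun _ _ => rfl) (fun z hz => ?_)
    have hz0 : 0 < z.im := hr.im _ hz
    by_cases h : ∀ k ∈ S, z ∉ R k
    · rw [BQ_zero h, hD.h0 z h, zero_mul]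
    · push Not at h
      obtain ⟨k, hk, hζ⟩ := h
      rw [BQ_eq (D := D) (Λ := Λ) hF hk hζ (show (z, y) ∈ D from hz), Wk_self hF hk hz0, hr.self _ _ hz, mul_one]
  · intro w
    have hO : IsOpen {y : E | (w, y) ∈ D} := hr.op.preimage (by fun_prop : Continuous fun y : E => (w, y))
    have h1 := HP.differentiableOn_integral (X := E) (E := ℂ) volume
      (fun ζ y => BQ D Λ S a R μ G y ζ w / (w - ζ)) {y : E | (w, y) ∈ D} hO
      (fun y _ => (B_int (hmeas y) (fun ζ w => hb y ζ w) w w).aestronglyMeasurable)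
      (fun ζ y hy => by
        have h2 := BQ_diff hr hF hD ζ (w := w) (y := y) hy
        have h3 : DifferentiableAt ℂ (fun y : E => (w, y)) y :=
          (differentiableAt_const _).prodMk differentiableAt_id
        have h4 := DifferentiableAt.comp (g := fun p : ℂ × E => BQ D Λ S a R μ G p.2 ζ p.1) y h2 h3
        simp only [div_eq_mul_inv]
        exact (h4.mul_const _).differentiableWithinAt)
      (fun ζ => (ball (0 : ℂ) ρ).indicator (fun _ => M') ζ * ‖w - ζ‖⁻¹) (dom_int w ρ M')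
      (fun ζ y _ => by
        rw [norm_div, div_eq_mul_inv]
        exact mul_le_mul_of_nonneg_right (hb y ζ w) (by positivity))
    exact h1.const_mul _

end

end Pool.Agent.H788R3.Cor3
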