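import Mathlib
import Pool.Agent.H788R3.Cor2.Base
import Pool.Agent.H788R3.Cor3.Asm3

/-!
Localisation theorem for the corona problem on domains over simply connected plane domains with
holomorphic retractions onto the slices: arbitrary tuples `G m`.
-/

set_option autoImplicit false
set_option linter.unusedSectionVars false

open MeasureTheory Metric Set Filter Topology Complex
open scoped ContDiff

namespace Pool.Agent.H788R3.Cor3

open Pool.Agent.H720R2 Pool.Agent.H720R2.HP Pool.Agent.H788R3.Cor2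

/-- Bezout equation on domains over the half plane with retractions, for nice `f i` -/
def Siegel3 (N M : ℕ) (ε K C : ℝ) : Prop :=
  ∀ (E : Type) [NormedAddCommGroup E] [NormedSpace ℂ E] [FiniteDimensional ℂ E]
    (D : Set (ℂ × E)) (Λ : ℂ → ℂ × E → E), Retr D Λ → ∀
    (f : Fin N → ℂ → ℂ) (η : ℝ), 0 < η →
    (∀ i, DifferentiableOn ℂ (f i) {w : ℂ | -η < w.im}) →
    (∀ i, ∀ w : ℂ, 0 ≤ w.im → ‖f i w‖ ≤ 1) →
    (∀ i, ∃ c : ℂ, Tendsto (f i) (Bornology.cobounded ℂ ⊓ 𝓟 {w : ℂ | 0 ≤ w.im}) (𝓝 c)) →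
    ∀ G : Fin M → ℂ × E → ℂ, (∀ m, DifferentiableOn ℂ (G m) D) →
    (∀ m, ∀ p ∈ D, ‖G m p‖ ≤ 1) →
    ∀ O : Set ℂ, IsOpen O → (∀ w ∈ UH, (∀ i, ‖f i w‖ ≤ ε / 2) → w ∈ O) →
    ∀ k : Fin M → ℂ × E → ℂ, (∀ m, DifferentiableOn ℂ (k m) {p | p ∈ D ∧ p.1 ∈ O}) →
    (∀ m, ∀ p ∈ D, p.1 ∈ O → ‖k m p‖ ≤ K) → (∀ p ∈ D, p.1 ∈ O → ∑ m, G m p * k m p = 1) →
    ∃ (g : Fin N → ℂ × E → ℂ) (g₀ : Fin M → ℂ × E → ℂ),
      (∀ i, DifferentiableOn ℂ (g i) D) ∧
      (∀ m, DifferentiableOn ℂ (g₀ m) D) ∧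
      (∀ i, ∀ p ∈ D, ‖g i p‖ ≤ C) ∧
      (∀ m, ∀ p ∈ D, ‖g₀ m p‖ ≤ C) ∧
      ∀ p ∈ D, ∑ i, f i p.1 * g i p + ∑ m, G m p * g₀ m p = 1

theorem siegel3 (N M : ℕ) {ε K : ℝ} (hε : 0 < ε) (hε1 : ε ≤ 1) (hK : 0 ≤ K) :
    ∃ C : ℝ, Siegel3 N M ε K C := by
  obtain ⟨ε', C, hε', hC, hcut⟩ := cutN N (ε := ε / 2) (by positivity) (by linarith)
  refine ⟨max (1 / ε' + M * (2160 * Real.exp C * (C / ε') * K) +
        N * (2 * (2160 * Real.exp C * (2 * C / ε' ^ 2) * 1)))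
        (K + N * (2160 * Real.exp C * (C / ε') * K)), ?_⟩
  intro E _ _ _ D Λ hr f η hη hf hfb hlim G hG hGb O hO hOε k hk hkb hGk
  obtain ⟨S, a, R, χ, hP⟩ := hcut f η (fun i => ⟨hη, hf i, hfb i⟩) hlim
  obtain ⟨g, g0, h1, h2, h3, h4, h5⟩ := solve3 hr hP hε' hC.le
    (fun i => (hf i).mono (fun w hw => by
      change -η < w.im
      have : (0 : ℝ) < w.im := hw
      linarith)) (fun i w hw => hfb i w (le_of_lt hw)) hG hGb hO hOε hk hK hkb hGk
  exact ⟨g, g0, h1, h2, fun i p hp => (h3 i p hp).trans (le_max_left _ _),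
    fun m p hp => (h4 m p hp).trans (le_max_right _ _), h5⟩

variable {E : Type} [NormedAddCommGroup E] [NormedSpace ℂ E] [FiniteDimensional ℂ E]

theorem open_all {X : Type*} [TopologicalSpace X] {n : ℕ} {A : Set X} (hA : IsOpen A)
    {F : Fin n → X → ℝ} (hF : ∀ i, ContinuousOn (F i) A) (ε : ℝ) :
    IsOpen {x | x ∈ A ∧ ∀ i, F i x < ε} := by
  rw [isOpen_iff_mem_nhds]
  rintro x ⟨hx, hxi⟩
  have h1 : ∀ i, ∀ᶠ y in 𝓝 x, F i y < ε := fun i =>
    ((hF i).continuousAt (hA.mem_nhds hx)).eventually (gt_mem_nhds (hxi i))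
  filter_upwards [hA.mem_nhds hx, eventually_all.2 h1] with y hy1 hy2
  exact ⟨hy1, hy2⟩

/-- solutions on the part of the domain over a compact part of the base -/
theorem solve_rho3 {N M : ℕ} {ε K C : ℝ} (hε : 0 < ε) (H : Siegel3 N M ε K C) {U : Set ℂ}
    (hU : IsOpen U)
    {D : Set (ℂ × E)} {Λ : ℂ → ℂ × E → E} (hR : RetrU U D Λ)
    {h ψ : ℂ → ℂ} (hh : DifferentiableOn ℂ h (ball 0 1)) (hm : MapsTo h (ball 0 1) U)
    (hψ : DifferentiableOn ℂ ψ U) (_hψm : MapsTo ψ U (ball 0 1)) (hinv : ∀ z ∈ U, h (ψ z) = z)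
    (f : Fin N → ℂ → ℂ) (hf : ∀ i, DifferentiableOn ℂ (f i) U)
    (hfb : ∀ i, ∀ z ∈ U, ‖f i z‖ ≤ 1)
    (G : Fin M → ℂ × E → ℂ) (hG : ∀ m, DifferentiableOn ℂ (G m) D)
    (hGb : ∀ m, ∀ q ∈ D, ‖G m q‖ ≤ 1)
    (k : Fin M → ℂ × E → ℂ)
    (hk : ∀ m, DifferentiableOn ℂ (k m) {q | q ∈ D ∧ ∀ i, ‖f i q.1‖ < ε})
    (hkb : ∀ m, ∀ q ∈ D, (∀ i, ‖f i q.1‖ < ε) → ‖k m q‖ ≤ K)
    (hGk : ∀ q ∈ D, (∀ i, ‖f i q.1‖ < ε) → ∑ m, G m q * k m q = 1)
    {r : ℝ} (hr0 : 0 < r) (hr1 : r < 1) :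
    ∃ (g : Fin N → ℂ × E → ℂ) (g₀ : Fin M → ℂ × E → ℂ),
      (∀ i, DifferentiableOn ℂ (g i) {q ∈ D | ‖ψ q.1‖ < r}) ∧
      (∀ m, DifferentiableOn ℂ (g₀ m) {q ∈ D | ‖ψ q.1‖ < r}) ∧
      (∀ i, ∀ q ∈ {q ∈ D | ‖ψ q.1‖ < r}, ‖g i q‖ ≤ C) ∧
      (∀ m, ∀ q ∈ {q ∈ D | ‖ψ q.1‖ < r}, ‖g₀ m q‖ ≤ C) ∧
      ∀ q ∈ {q ∈ D | ‖ψ q.1‖ < r}, ∑ i, f i q.1 * g i q + ∑ m, G m q * g₀ m q = 1 := by
  have hr2 : r ^ 2 < 1 := by nlinarith
  have hfd : ∀ i, DifferentiableOn ℂ (fun w => f i (h (cy r w))) {w : ℂ | -((1 - r ^ 2) / 16) < w.im} := by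
    intro i
    have h1 : MapsTo (cy r) {w : ℂ | -((1 - r ^ 2) / 16) < w.im} (ball 0 1) := fun w hw =>
      cy_mem hr0 hr1 hw
    exact (hf i).comp (hh.comp (cy_diff hr0 hr1) h1) (fun w hw => hm (h1 hw))
  have hfc : ∀ i, ContinuousOn (fun w => ‖f i (h (cy r w))‖) UH := by
    intro i w hw
    have h1 : DifferentiableAt ℂ (fun w => h (cy r w)) w := hcy_diffAt hh hr0 hr1 hw
    have h2 : DifferentiableAt ℂ (f i) (h (cy r w)) :=
      (hf i).differentiableAt (hU.mem_nhds (hm (cy_mem' hr0 hr1 hw)))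
    exact (ContinuousAt.comp (f := fun w => h (cy r w)) (g := f i) h2.continuousAt
      h1.continuousAt).norm.continuousWithinAt
  set O : Set ℂ := {w | w ∈ UH ∧ ∀ i, ‖f i (h (cy r w))‖ < ε} with hOdef
  have hOo : IsOpen O := open_all isOpen_UH hfc ε
  have hpull : ∀ (F : ℂ × E → ℂ) (T : Set (ℂ × E)), IsOpen T → DifferentiableOn ℂ F T →
      ∀ p : ℂ × E, 0 < p.1.im → (h (cy r p.1), p.2) ∈ T →
      DifferentiableAt ℂ (fun p : ℂ × E => F (h (cy r p.1), p.2)) p := by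
    intro F T hT hF p hp hpT
    have h1 : DifferentiableAt ℂ (fun w => h (cy r w)) p.1 := hcy_diffAt hh hr0 hr1 hp
    have h2 : DifferentiableAt ℂ (fun p : ℂ × E => h (cy r p.1)) p :=
      DifferentiableAt.comp (g := fun w => h (cy r w)) (f := fun p : ℂ × E => p.1) p h1
        differentiableAt_fst
    have h3 : DifferentiableAt ℂ (fun p : ℂ × E => (h (cy r p.1), p.2)) p :=
      h2.prodMk differentiableAt_snd
    have h4 : DifferentiableAt ℂ F (h (cy r p.1), p.2) :=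
      (hF _ hpT).differentiableAt (hT.mem_nhds hpT)
    exact DifferentiableAt.comp (g := F) p h4 h3
  have hDf : IsOpen {q : ℂ × E | q ∈ D ∧ ∀ i, ‖f i q.1‖ < ε} :=
    open_all hR.op (fun i =>
      ((hf i).continuousOn.comp continuousOn_fst (fun q hq => hR.sub _ hq)).norm) ε
  obtain ⟨g, g₀, hg, hg0, hgb, hg0b, hid⟩ := H E (Dr D h r) (Lr Λ h r) (retr_r hR hh hm hr0 hr1)
    (fun i w => f i (h (cy r w))) ((1 - r ^ 2) / 16) (by linarith) hfd
    (by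
      intro i w hw
      apply hfb
      apply hm
      exact cy_mem hr0 hr1 (by linarith))
    (by
      intro i
      refine ⟨f i (h ((r : ℂ) * 1)), ?_⟩
      refine Tendsto.mono_left ?_ inf_le_left
      have hmem : (r : ℂ) * 1 ∈ ball (0 : ℂ) 1 := by
        rw [mem_ball_zero_iff, mul_one, Complex.norm_real, Real.norm_of_nonneg hr0.le]
        exact hr1
      have hc0 : ContinuousAt h ((r : ℂ) * 1) :=
        (hh.differentiableAt (isOpen_ball.mem_nhds hmem)).continuousAt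
      have hc : ContinuousAt (f i) (h ((r : ℂ) * 1)) :=
        ((hf i).differentiableAt (hU.mem_nhds (hm hmem))).continuousAt
      exact hc.tendsto.comp (hc0.tendsto.comp (TB.cay_tendsto.const_mul (r : ℂ))))
    (fun m p => G m (h (cy r p.1), p.2))
    (fun m p hp => (hpull (G m) D hR.op (hG m) p hp.1 hp.2).differentiableWithinAt)
    (fun m p hp => hGb m _ hp.2)
    O hOo
    (by
      intro w hw hi
      refine ⟨hw, fun i => ?_⟩
      have := hi i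
      linarith)
    (fun m p => k m (h (cy r p.1), p.2))
    (fun m p hp => (hpull (k m) _ hDf (hk m) p hp.1.1 ⟨hp.1.2, hp.2.2⟩).differentiableWithinAt)
    (fun m p hp hpO => hkb m _ hp.2 hpO.2)
    (fun p hp hpO => hGk _ hp.2 hpO.2)
  set T : ℂ × E → ℂ × E := fun q => (yc r (ψ q.1), q.2) with hT
  have hTm : MapsTo T {q ∈ D | ‖ψ q.1‖ < r} (Dr D h r) := by
    rintro q ⟨hq, hq2⟩
    refine ⟨yc_im hr0 hq2, ?_⟩
    change (h (cy r (yc r (ψ q.1))), q.2) ∈ D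
    rw [cy_yc hr0 hq2, hinv _ (hR.sub _ hq)]
    exact hq
  have hTd : DifferentiableOn ℂ T {q ∈ D | ‖ψ q.1‖ < r} := by
    rintro q ⟨hq, hq2⟩
    have h1 : DifferentiableAt ℂ ψ q.1 := (hψ _ (hR.sub _ hq)).differentiableAt (hU.mem_nhds (hR.sub _ hq))
    have h2 : DifferentiableAt ℂ (fun z => yc r (ψ z)) q.1 :=
      DifferentiableAt.comp q.1 (yc_diff hr0 hq2) h1
    have h3 : DifferentiableAt ℂ (fun q : ℂ × E => yc r (ψ q.1)) q :=
      DifferentiableAt.comp (g := fun z => yc r (ψ z)) (f := fun p : ℂ × E => p.1) q h2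
        differentiableAt_fst
    exact (h3.prodMk differentiableAt_snd).differentiableWithinAt
  refine ⟨fun i q => g i (T q), fun m q => g₀ m (T q), fun i => (hg i).comp hTd hTm,
    fun m => (hg0 m).comp hTd hTm, fun i q hq => hgb i _ (hTm hq),
    fun m q hq => hg0b m _ (hTm hq), fun q hq => ?_⟩
  have h2 := hid _ (hTm hq)
  have h3 : h (cy r (T q).1) = q.1 := by
    change h (cy r (yc r (ψ q.1))) = q.1
    rw [cy_yc hr0 hq.2, hinv _ (hR.sub _ hq.1)]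
  simp only [h3] at h2
  exact h2

/-- gluing solutions on an exhaustion -/
theorem exhaust3 {X : Type} [NormedAddCommGroup X] [NormedSpace ℂ X] {κ : Type} [Fintype κ] {C : ℝ}
    (B : ℕ → Set X) (hB : ∀ m, IsOpen (B m)) (hmono : Monotone B)
    (F : κ → X → ℂ)
    (hsol : ∀ m, ∃ (g : κ → X → ℂ),
      (∀ i, DifferentiableOn ℂ (g i) (B m)) ∧
      (∀ i, ∀ q ∈ B m, ‖g i q‖ ≤ C) ∧
      ∀ q ∈ B m, ∑ i, F i q * g i q = 1) :
    ∃ (g : κ → X → ℂ),
      (∀ i, DifferentiableOn ℂ (g i) (⋃ m, B m)) ∧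
      (∀ i, ∀ q ∈ ⋃ m, B m, ‖g i q‖ ≤ C) ∧
      ∀ q ∈ ⋃ m, B m, ∑ i, F i q * g i q = 1 := by
  classical
  choose g hg hgb hid using hsol
  set 𝒰 : Ultrafilter ℕ := Ultrafilter.of atTop with h𝒰
  have hle : (𝒰 : Filter ℕ) ≤ atTop := Ultrafilter.of_le _
  -- limits of a sequence of functions, the `m`-th of which is defined on `B m`
  have key : ∀ u : ℕ → X → ℂ, (∀ m, DifferentiableOn ℂ (u m) (B m)) →
      (∀ m, ∀ q ∈ B m, ‖u m q‖ ≤ C) →
      ∃ v : X → ℂ, DifferentiableOn ℂ v (⋃ m, B m) ∧ (∀ q ∈ ⋃ m, B m, ‖v q‖ ≤ C) ∧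
        ∀ q ∈ ⋃ m, B m, Tendsto (fun m => u m q) 𝒰 (𝓝 (v q)) := by
    intro u hu hub
    have h1 : ∀ k, ∃ v : X → ℂ, DifferentiableOn ℂ v (B k) ∧ (∀ q ∈ B k, ‖v q‖ ≤ C) ∧
        ∀ q ∈ B k, Tendsto (fun m => u m q) 𝒰 (𝓝 (v q)) := by
      intro k
      rcases (B k).eq_empty_or_nonempty with he | ⟨q0, hq0⟩
      · refine ⟨fun _ => 0, ?_, ?_, ?_⟩ <;> rw [he] <;> simp
      · have hC : 0 ≤ C := (norm_nonneg _).trans (hub k q0 hq0)
        obtain ⟨v, hv1, hv2, hv3⟩ := Cor.ultra_lim (hB k) 𝒰 (fun m => if k ≤ m then u m else 0) (by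
          intro m
          split_ifs with hkm
          · exact (hu m).mono (hmono hkm)
          · exact differentiableOn_const _) (C := C) (by
          intro m q hq
          split_ifs with hkm
          · exact hub m q (hmono hkm hq)
          · simpa using hC)
        refine ⟨v, hv1, hv2, fun q hq => ?_⟩
        refine (hv3 q hq).congr' ?_
        have h2 : ∀ᶠ m in (𝒰 : Filter ℕ), k ≤ m := hle (eventually_ge_atTop k)
        filter_upwards [h2] with m hm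
        rw [if_pos hm]
    choose v hv1 hv2 hv3 using h1
    have hU : ∀ q, q ∈ ⋃ m, B m → ∃ k, q ∈ B k := fun q hq => mem_iUnion.1 hq
    set V : X → ℂ := fun q => if h : ∃ k, q ∈ B k then v h.choose q else 0 with hV
    have hVeq : ∀ k, ∀ q ∈ B k, V q = v k q := by
      intro k q hq
      have h : ∃ k, q ∈ B k := ⟨k, hq⟩
      have h2 : V q = v h.choose q := by
        rw [hV]
        simp only [dif_pos h]
      rw [h2]
      exact tendsto_nhds_unique (hv3 _ q h.choose_spec) (hv3 k q hq)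
    refine ⟨V, ?_, ?_, ?_⟩
    · intro q hq
      obtain ⟨k, hk⟩ := hU q hq
      have h2 : DifferentiableAt ℂ (v k) q := (hv1 k q hk).differentiableAt ((hB k).mem_nhds hk)
      have h3 : V =ᶠ[𝓝 q] v k := by
        filter_upwards [(hB k).mem_nhds hk] with p hp
        exact hVeq k p hp
      exact (h2.congr_of_eventuallyEq h3).differentiableWithinAt
    · intro q hq
      obtain ⟨k, hk⟩ := hU q hq
      rw [hVeq k q hk]
      exact hv2 k q hk
    · intro q hq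
      obtain ⟨k, hk⟩ := hU q hq
      rw [hVeq k q hk]
      exact hv3 k q hk
  choose v hv1 hv2 hv3 using fun i => key (fun m => g m i) (fun m => hg m i) (fun m => hgb m i)
  refine ⟨v, hv1, hv2, fun q hq => ?_⟩
  have h1 : Tendsto (fun m => ∑ i, F i q * g m i q) 𝒰 (𝓝 (∑ i, F i q * v i q)) := by
    refine tendsto_finsetSum _ fun i _ => ?_
    exact (hv3 i q hq).const_mul _
  obtain ⟨k, hk⟩ := mem_iUnion.1 hq
  have h2 : ∀ᶠ m in (𝒰 : Filter ℕ), ∑ i, F i q * g m i q = 1 := by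
    have h3 : ∀ᶠ m in (𝒰 : Filter ℕ), k ≤ m := hle (eventually_ge_atTop k)
    filter_upwards [h3] with m hm
    exact hid m q (hmono hm hk)
  have h4 : Tendsto (fun m => ∑ i, F i q * g m i q) 𝒰 (𝓝 1) :=
    tendsto_const_nhds.congr' (h2.mono fun m hm => hm.symm)
  exact tendsto_nhds_unique h1 h4

/-- **Localisation theorem**: domains with holomorphic retractions onto the slices. -/
theorem base_thm3 {N M : ℕ} {ε K C : ℝ} (hε : 0 < ε) (H : Siegel3 N M ε K C) {U : Set ℂ}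
    (hU : IsOpen U)
    (hUc : IsSimplyConnected U) (hne : U ≠ univ) (hne' : U.Nonempty)
    {D : Set (ℂ × E)} {Λ : ℂ → ℂ × E → E} (hR : RetrU U D Λ)
    (f : Fin N → ℂ → ℂ) (hf : ∀ i, DifferentiableOn ℂ (f i) U)
    (hfb : ∀ i, ∀ z ∈ U, ‖f i z‖ ≤ 1)
    (G : Fin M → ℂ × E → ℂ) (hG : ∀ m, DifferentiableOn ℂ (G m) D)
    (hGb : ∀ m, ∀ q ∈ D, ‖G m q‖ ≤ 1)
    (k : Fin M → ℂ × E → ℂ)
    (hk : ∀ m, DifferentiableOn ℂ (k m) {q | q ∈ D ∧ ∀ i, ‖f i q.1‖ < ε})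
    (hkb : ∀ m, ∀ q ∈ D, (∀ i, ‖f i q.1‖ < ε) → ‖k m q‖ ≤ K)
    (hGk : ∀ q ∈ D, (∀ i, ‖f i q.1‖ < ε) → ∑ m, G m q * k m q = 1) :
    ∃ (g : Fin N → ℂ × E → ℂ) (g₀ : Fin M → ℂ × E → ℂ),
      (∀ i, DifferentiableOn ℂ (g i) D) ∧ (∀ m, DifferentiableOn ℂ (g₀ m) D) ∧
      (∀ i, ∀ q ∈ D, ‖g i q‖ ≤ C) ∧ (∀ m, ∀ q ∈ D, ‖g₀ m q‖ ≤ C) ∧
      ∀ q ∈ D, ∑ i, f i q.1 * g i q + ∑ m, G m q * g₀ m q = 1 := by
  obtain ⟨a, ha⟩ := hne'
  obtain ⟨h, ψ, hh, hbij, -, -, hψ, hψm, hinv, -⟩ :=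
    Pool.Agent.Helper202.Riemann.riemann_inv hU hUc hne ha
  set r : ℕ → ℝ := fun m => 1 - 1 / ((m : ℝ) + 2) with hr
  have hr0 : ∀ m, 0 < r m := by
    intro m
    have : (0 : ℝ) ≤ m := Nat.cast_nonneg m
    rw [hr]
    beta_reduce
    rw [sub_pos, div_lt_one (by linarith)]
    linarith
  have hr1 : ∀ m, r m < 1 := by
    intro m
    have : (0 : ℝ) ≤ m := Nat.cast_nonneg m
    rw [hr]
    beta_reduce
    have : 0 < 1 / ((m : ℝ) + 2) := by positivity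
    linarith
  have hrt : Tendsto r atTop (𝓝 1) := by
    have h1 : Tendsto r atTop (𝓝 (1 - 0)) := by
      refine tendsto_const_nhds.sub ?_
      have h2 := (tendsto_one_div_add_atTop_nhds_zero_nat (𝕜 := ℝ))
      have h3 := h2.comp (tendsto_add_atTop_nat 1)
      refine h3.congr (fun m => ?_)
      simp only [Function.comp_apply]
      push_cast
      ring
    rwa [sub_zero] at h1
  have hrm : Monotone r := by
    intro m n hmn
    have : (0 : ℝ) ≤ m := Nat.cast_nonneg m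
    have h2 : (m : ℝ) ≤ n := by exact_mod_cast hmn
    simp only [hr]
    gcongr
  set B : ℕ → Set (ℂ × E) := fun m => {q ∈ D | ‖ψ q.1‖ < r m} with hB
  have hBo : ∀ m, IsOpen (B m) := by
    intro m
    have hc : ContinuousOn (fun q : ℂ × E => ‖ψ q.1‖) D := by
      refine ContinuousOn.norm ?_
      refine hψ.continuousOn.comp continuousOn_fst ?_
      intro q hq
      exact hR.sub _ hq
    exact hc.isOpen_inter_preimage hR.op (isOpen_Iio (a := r m))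
  have hBm : Monotone B := fun m n hmn q hq => ⟨hq.1, lt_of_lt_of_le hq.2 (hrm hmn)⟩
  have hBU : (⋃ m, B m) = D := by
    ext q
    rw [mem_iUnion]
    constructor
    · rintro ⟨m, hm⟩
      exact hm.1
    · intro hq
      have h1 : ‖ψ q.1‖ < 1 := by
        have := hψm (hR.sub _ hq)
        rwa [mem_ball_zero_iff] at this
      obtain ⟨m, hm⟩ := (hrt.eventually (lt_mem_nhds h1)).exists
      exact ⟨m, hq, hm⟩
  obtain ⟨v, hv1, hv2, hv3⟩ := exhaust3 (C := C) (κ := Fin N ⊕ Fin M) B hBo hBm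
    (Sum.elim (fun i q => f i q.1) G) (fun m => by
      obtain ⟨g, g₀, a1, a2, a3, a4, a5⟩ :=
        solve_rho3 hε H hU hR hh hbij.mapsTo hψ hψm hinv f hf hfb G hG hGb k hk hkb hGk
          (hr0 m) (hr1 m)
      refine ⟨Sum.elim g g₀, ?_, ?_, ?_⟩
      · rintro (i | i)
        · exact a1 i
        · exact a2 i
      · rintro (i | i)
        · exact a3 i
        · exact a4 i
      · intro q hq
        rw [Fintype.sum_sum_type]
        exact a5 q hq)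
  rw [hBU] at hv1 hv2 hv3
  refine ⟨fun i => v (Sum.inl i), fun m => v (Sum.inr m), fun i => hv1 _, fun m => hv1 _,
    fun i => hv2 _, fun m => hv2 _, fun q hq => ?_⟩
  have h1 := hv3 q hq
  rw [Fintype.sum_sum_type] at h1
  exact h1

end Pool.Agent.H788R3.Cor3
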