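import Mathlib
import Pool.Agent.H788R3.Cor2.Spc
import Pool.Agent.H788R3.Cor3.Base3

/-!
Corona theorem on the ball for data depending on one coordinate each, by peeling off one coordinate
after the other.
-/

set_option autoImplicit false
set_option linter.unusedSectionVars false

open MeasureTheory Metric Set Filter Topology Complex
open scoped ContDiff

namespace Pool.Agent.H788R3.Cor3

open Pool.Agent.H788R3.Cor2

variable {J : Type} [Fintype J] [DecidableEq J]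

/-- the Euclidean unit ball of `ℂ^J` -/
def BJ (J : Type) [Fintype J] : Set (J → ℂ) := {z | ∑ j, ‖z j‖ ^ 2 < 1}

theorem BJ_open : IsOpen (BJ J) :=
  isOpen_lt (by fun_prop) continuous_const

theorem upd_sum (y : J → ℂ) (j : J) (w : ℂ) :
    ∑ i, ‖Function.update y j w i‖ ^ 2 = ‖w‖ ^ 2 + ∑ i ∈ Finset.univ.erase j, ‖y i‖ ^ 2 := by
  rw [← Finset.add_sum_erase Finset.univ _ (Finset.mem_univ j), Function.update_self]
  congr 1
  refine Finset.sum_congr rfl (fun i hi => ?_)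
  rw [Function.update_of_ne (Finset.ne_of_mem_erase hi)]

theorem upd_diff (j : J) : Differentiable ℂ (fun p : ℂ × (J → ℂ) => Function.update p.2 j p.1) := by
  rw [differentiable_pi]
  intro i
  by_cases h : i = j
  · subst h
    simp only [Function.update_self]
    fun_prop
  · simp only [Function.update_of_ne h]
    fun_prop

theorem coord_mem {z : J → ℂ} (hz : z ∈ BJ J) (j : J) : z j ∈ ball (0 : ℂ) 1 := by
  have h1 : ∑ j, ‖z j‖ ^ 2 < 1 := hz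
  have h2 : ‖z j‖ ^ 2 ≤ ∑ j, ‖z j‖ ^ 2 :=
    Finset.single_le_sum (f := fun j => ‖z j‖ ^ 2) (fun i _ => by positivity) (Finset.mem_univ j)
  rw [mem_ball_zero_iff]
  nlinarith [norm_nonneg (z j)]

/-- the domain over the disc -/
def DJ (j : J) : Set (ℂ × (J → ℂ)) := {p | Function.update p.2 j p.1 ∈ BJ J}

theorem retr_ball (j : J) : ∃ Λ : ℂ → ℂ × (J → ℂ) → (J → ℂ), RetrU (ball (0 : ℂ) 1) (DJ j) Λ := by
  obtain ⟨A, hA1, hA2, hA3, hA4⟩ := conv_supp isOpen_ball lg_convex lg_diff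
  have hsub : ∀ p ∈ DJ j, p.1 ∈ ball (0 : ℂ) 1 := by
    intro p hp
    have h1 := coord_mem (J := J) hp j
    rwa [Function.update_self] at h1
  refine ⟨fun c p => A c p.1 • p.2, ⟨?_, hsub, ?_, ?_, ?_, ?_⟩⟩
  · exact BJ_open.preimage (upd_diff j).continuous
  · intro c hc p hp
    have h0 : ‖p.1‖ ^ 2 + ∑ i ∈ Finset.univ.erase j, ‖p.2 i‖ ^ 2 < 1 := by
      rw [← upd_sum]; exact hp
    change ∑ i, ‖Function.update (A c p.1 • p.2) j c i‖ ^ 2 < 1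
    rw [upd_sum]
    have h1 : ∑ i ∈ Finset.univ.erase j, ‖(A c p.1 • p.2) i‖ ^ 2 =
        ‖A c p.1‖ ^ 2 * ∑ i ∈ Finset.univ.erase j, ‖p.2 i‖ ^ 2 := by
      rw [Finset.mul_sum]
      refine Finset.sum_congr rfl (fun i _ => ?_)
      rw [Pi.smul_apply, smul_eq_mul, norm_mul, mul_pow]
    rw [h1]
    have hz := hsub p hp
    have h2 := lg_pos hz
    have h3 := lg_pos hc
    have h4 := hA3 c hc p.1 hz
    have h5 : ‖A c p.1‖ ^ 2 ≤ (1 - ‖c‖ ^ 2) / (1 - ‖p.1‖ ^ 2) := by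
      refine (pow_le_pow_left₀ (norm_nonneg _) h4 2).trans (le_of_eq ?_)
      rw [← Real.exp_nat_mul]
      have h6 : ((2 : ℕ) : ℝ) * (-(1 / 2) * Real.log (1 - ‖p.1‖ ^ 2) -
          -(1 / 2) * Real.log (1 - ‖c‖ ^ 2)) =
          Real.log (1 - ‖c‖ ^ 2) - Real.log (1 - ‖p.1‖ ^ 2) := by
        push_cast
        ring
      rw [h6, Real.exp_sub, Real.exp_log h2, Real.exp_log h3]
    have h7 : 0 ≤ ∑ i ∈ Finset.univ.erase j, ‖p.2 i‖ ^ 2 :=
      Finset.sum_nonneg fun i _ => by positivity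
    have h8 : ∑ i ∈ Finset.univ.erase j, ‖p.2 i‖ ^ 2 < 1 - ‖p.1‖ ^ 2 := by linarith
    have h9 : ‖A c p.1‖ ^ 2 * ∑ i ∈ Finset.univ.erase j, ‖p.2 i‖ ^ 2 < 1 - ‖c‖ ^ 2 := by
      calc ‖A c p.1‖ ^ 2 * ∑ i ∈ Finset.univ.erase j, ‖p.2 i‖ ^ 2
          ≤ (1 - ‖c‖ ^ 2) / (1 - ‖p.1‖ ^ 2) * ∑ i ∈ Finset.univ.erase j, ‖p.2 i‖ ^ 2 := by
            gcongr
        _ < (1 - ‖c‖ ^ 2) / (1 - ‖p.1‖ ^ 2) * (1 - ‖p.1‖ ^ 2) := by
            apply mul_lt_mul_of_pos_left h8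
            positivity
        _ = 1 - ‖c‖ ^ 2 := div_mul_cancel₀ _ h2.ne'
    linarith
  · intro c y hy
    have hc := hsub _ hy
    change A c c • y = y
    rw [hA2 c hc, one_smul]
  · intro c hc p hp
    have h1 : DifferentiableAt ℂ (A c) p.1 :=
      (hA1 c hc).differentiableAt (isOpen_ball.mem_nhds (hsub p hp))
    have h2 : DifferentiableAt ℂ (fun p : ℂ × (J → ℂ) => A c p.1) p :=
      DifferentiableAt.comp (f := fun p : ℂ × (J → ℂ) => p.1) p h1 differentiableAt_fst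
    exact h2.smul differentiableAt_snd
  · intro y
    have h1 : ContinuousOn (fun q : ℂ × ℂ => A q.1 q.2)
        {q | q.1 ∈ ball (0 : ℂ) 1 ∧ (q.2, y) ∈ DJ j} :=
      hA4.mono (fun q hq => ⟨hq.1, hsub _ hq.2⟩)
    exact h1.smul continuousOn_const

/-- **Localisation on the ball** -/
theorem peel (N M : ℕ) {ε K : ℝ} (hε : 0 < ε) (hε1 : ε ≤ 1) (hK : 0 ≤ K) : ∃ C : ℝ,
    ∀ (J : Type) [Fintype J] [DecidableEq J] (j : J)
    (f : Fin N → ℂ → ℂ) (_hf : ∀ i, DifferentiableOn ℂ (f i) (ball 0 1))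
    (_hfb : ∀ i, ∀ z ∈ ball (0 : ℂ) 1, ‖f i z‖ ≤ 1)
    (G : Fin M → (J → ℂ) → ℂ) (_hG : ∀ m, DifferentiableOn ℂ (G m) (BJ J))
    (_hGb : ∀ m, ∀ z ∈ BJ J, ‖G m z‖ ≤ 1)
    (k : Fin M → (J → ℂ) → ℂ)
    (_hk : ∀ m, DifferentiableOn ℂ (k m) {z | z ∈ BJ J ∧ ∀ i, ‖f i (z j)‖ < ε})
    (_hkb : ∀ m, ∀ z ∈ BJ J, (∀ i, ‖f i (z j)‖ < ε) → ‖k m z‖ ≤ K)
    (_hGk : ∀ z ∈ BJ J, (∀ i, ‖f i (z j)‖ < ε) → ∑ m, G m z * k m z = 1),
    ∃ (g : Fin N → (J → ℂ) → ℂ) (g₀ : Fin M → (J → ℂ) → ℂ),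
      (∀ i, DifferentiableOn ℂ (g i) (BJ J)) ∧ (∀ m, DifferentiableOn ℂ (g₀ m) (BJ J)) ∧
      (∀ i, ∀ z ∈ BJ J, ‖g i z‖ ≤ C) ∧ (∀ m, ∀ z ∈ BJ J, ‖g₀ m z‖ ≤ C) ∧
      ∀ z ∈ BJ J, ∑ i, f i (z j) * g i z + ∑ m, G m z * g₀ m z = 1 := by
  obtain ⟨C, hC⟩ := siegel3 N M hε hε1 hK
  refine ⟨C, ?_⟩
  intro J _ _ j f hf hfb G hG hGb k hk hkb hGk
  obtain ⟨Λ, hR⟩ := retr_ball j
  have hu := upd_diff (J := J) j
  have hne : ball (0 : ℂ) 1 ≠ univ := by
    intro h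
    have h1 : (2 : ℂ) ∈ ball (0 : ℂ) 1 := by rw [h]; trivial
    rw [mem_ball_zero_iff] at h1
    norm_num at h1
  obtain ⟨g, g₀, h1, h2, h3, h4, h5⟩ := base_thm3 hε hC isOpen_ball
    (conv_sc (convex_ball 0 1) ⟨0, mem_ball_self one_pos⟩) hne ⟨0, mem_ball_self one_pos⟩ hR f hf hfb
    (fun m p => G m (Function.update p.2 j p.1))
    (fun m => (hG m).comp hu.differentiableOn (fun p hp => hp))
    (fun m p hp => hGb m _ hp)
    (fun m p => k m (Function.update p.2 j p.1))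
    (fun m => (hk m).comp hu.differentiableOn (fun p hp => ⟨hp.1, fun i => by
      rw [Function.update_self]; exact hp.2 i⟩))
    (fun m p hp hi => hkb m _ hp (fun i => by rw [Function.update_self]; exact hi i))
    (fun p hp hi => hGk _ hp (fun i => by rw [Function.update_self]; exact hi i))
  have hm : MapsTo (fun z : J → ℂ => (z j, z)) (BJ J) (DJ j) := by
    intro z hz
    change Function.update z j (z j) ∈ BJ J
    rw [Function.update_eq_self]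
    exact hz
  have hd : DifferentiableOn ℂ (fun z : J → ℂ => (z j, z)) (BJ J) := by
    apply Differentiable.differentiableOn
    fun_prop
  refine ⟨fun i z => g i (z j, z), fun m z => g₀ m (z j, z), fun i => (h1 i).comp hd hm,
    fun m => (h2 m).comp hd hm, fun i z hz => h3 i _ (hm hz), fun m z hz => h4 m _ (hm hz),
    fun z hz => ?_⟩
  have h6 := h5 _ (hm hz)
  simp only [Function.update_eq_self] at h6
  exact h6

end Pool.Agent.H788R3.Cor3
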