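import Mathlib
import Pool.Agent.H788R3.Cor3.Ball

/-!
Corona theorem on the ball for data depending on one coordinate each: induction on the number of
coordinates.
-/

set_option autoImplicit false
set_option linter.unusedSectionVars false

open MeasureTheory Metric Set Filter Topology Complex
open scoped ContDiff

namespace Pool.Agent.H788R3.Cor3

open Pool.Agent.H788R3.Cor2

/-- corona theorem with constant `C` on all balls for `N` functions of one coordinate each, all
coordinates used being in `T` or equal to `j0`, and one function `G` independent of the coordinates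
in `T`, which has at most `k` elements -/
def BallCor (N : ℕ) (δ C : ℝ) (k : ℕ) : Prop :=
  ∀ (J : Type) [Fintype J] [DecidableEq J] (T : Finset J) (j0 : J) (c : Fin N → J)
    (f : Fin N → ℂ → ℂ) (G : (J → ℂ) → ℂ), T.card ≤ k →
    (∀ i, c i ∈ T ∨ c i = j0 ∨ ∀ z ∈ ball (0 : ℂ) 1, f i z = 0) →
    (∀ i, DifferentiableOn ℂ (f i) (ball 0 1)) → (∀ i, ∀ z ∈ ball (0 : ℂ) 1, ‖f i z‖ ≤ 1) →
    DifferentiableOn ℂ G (BJ J) → (∀ z ∈ BJ J, ‖G z‖ ≤ 1) →
    (∀ j ∈ T, ∀ z ∈ BJ J, ∀ z' ∈ BJ J, (∀ i, i ≠ j → z i = z' i) → G z = G z') →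
    (∀ z ∈ BJ J, δ ≤ ∑ i, ‖f i (z (c i))‖ ^ 2 + ‖G z‖ ^ 2) →
    ∃ (g : Fin N → (J → ℂ) → ℂ) (g₀ : (J → ℂ) → ℂ),
      (∀ i, DifferentiableOn ℂ (g i) (BJ J)) ∧ DifferentiableOn ℂ g₀ (BJ J) ∧
      (∀ i, ∀ z ∈ BJ J, ‖g i z‖ ≤ C) ∧ (∀ z ∈ BJ J, ‖g₀ z‖ ≤ C) ∧
      ∀ z ∈ BJ J, ∑ i, f i (z (c i)) * g i z + G z * g₀ z = 1

theorem BallCor.mono {N : ℕ} {δ C C' : ℝ} {k : ℕ} (h : BallCor N δ C k) (hC : C ≤ C') :
    BallCor N δ C' k := by
  intro J _ _ T j0 c f G a1 a2 a3 a4 a5 a6 a7 a8
  obtain ⟨g, g₀, b1, b2, b3, b4, b5⟩ := h J T j0 c f G a1 a2 a3 a4 a5 a6 a7 a8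
  exact ⟨g, g₀, b1, b2, fun i z hz => (b3 i z hz).trans hC, fun z hz => (b4 z hz).trans hC, b5⟩

theorem small_sum {N : ℕ} {a : Fin N → ℂ} {δ : ℝ} (hδ : 0 < δ)
    (h : ∀ i, ‖a i‖ < min 1 (δ / (2 * (N + 1)))) : ∑ i, ‖a i‖ ^ 2 ≤ δ / 2 := by
  have h1 : ∀ i, ‖a i‖ ^ 2 ≤ δ / (2 * (N + 1)) := by
    intro i
    have h2 := lt_min_iff.1 (h i)
    nlinarith [norm_nonneg (a i)]
  refine (Finset.sum_le_sum (fun i _ => h1 i)).trans ?_
  rw [Finset.sum_const, Finset.card_univ, Fintype.card_fin, nsmul_eq_mul]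
  have hN : (0 : ℝ) < N + 1 := by positivity
  rw [mul_div_assoc', div_le_div_iff₀ (by positivity) (by norm_num)]
  nlinarith

theorem G_lower {G : ℂ} {δ : ℝ} (hG : ‖G‖ ≤ 1) (h : δ / 2 ≤ ‖G‖ ^ 2) : δ / 2 ≤ ‖G‖ := by
  nlinarith [norm_nonneg G]

theorem ballCor_zero (N : ℕ) {δ : ℝ} (hδ : 0 < δ) : ∃ C, 0 ≤ C ∧ BallCor N δ C 0 := by
  set ε : ℝ := min 1 (δ / (2 * (N + 1))) with hε
  have hN : (0 : ℝ) < N + 1 := by positivity
  have hε0 : 0 < ε := lt_min one_pos (by positivity)
  obtain ⟨C, hC⟩ := peel N 1 (ε := ε) (K := 2 / δ) hε0 (min_le_left _ _) (by positivity)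
  refine ⟨max C 0, le_max_right _ _, ?_⟩
  intro J _ _ T j0 c f G hT hc hf hfb hG hGb hGi hlow
  have hT0 : T = ∅ := Finset.card_eq_zero.1 (Nat.le_zero.1 hT)
  have hfc : ∀ z ∈ BJ J, ∀ i, f i (z (c i)) = f i (z j0) := by
    intro z hz i
    rcases hc i with h | h | h
    · rw [hT0] at h
      exact absurd h (Finset.notMem_empty _)
    · rw [h]
    · rw [h _ (coord_mem hz _), h _ (coord_mem hz _)]
  have hlow' : ∀ z ∈ BJ J, (∀ i, ‖f i (z j0)‖ < ε) → δ / 2 ≤ ‖G z‖ := by
    intro z hz hi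
    have h1 := hlow z hz
    have h2 : ∑ i, ‖f i (z (c i))‖ ^ 2 = ∑ i, ‖f i (z j0)‖ ^ 2 :=
      Finset.sum_congr rfl (fun i _ => by rw [hfc z hz i])
    rw [h2] at h1
    have h3 := small_sum hδ hi
    exact G_lower (hGb z hz) (by linarith)
  obtain ⟨g, g₀, h1, h2, h3, h4, h5⟩ := hC J j0 f hf hfb (fun _ => G) (fun _ => hG) (fun _ => hGb)
    (fun _ z => (G z)⁻¹)
    (fun _ => by
      refine (hG.mono (fun z hz => hz.1)).fun_inv ?_
      intro z hz h0
      have := hlow' z hz.1 hz.2
      rw [h0, norm_zero] at this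
      linarith)
    (fun _ z hz hi => by
      have h1 := hlow' z hz hi
      rw [norm_inv, show 2 / δ = (δ / 2)⁻¹ by rw [inv_div]]
      exact inv_anti₀ (by positivity) h1)
    (fun z hz hi => by
      have h1 := hlow' z hz hi
      have h2 : G z ≠ 0 := by
        intro h0
        rw [h0, norm_zero] at h1
        linarith
      simp [mul_inv_cancel₀ h2])
  refine ⟨g, g₀ 0, h1, h2 0, fun i z hz => (h3 i z hz).trans (le_max_left _ _),
    fun z hz => (h4 0 z hz).trans (le_max_left _ _), fun z hz => ?_⟩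
  have h6 := h5 z hz
  simp only [Finset.univ_unique, Fin.default_eq_zero, Finset.sum_singleton] at h6
  rw [← h6]
  congr 1
  exact Finset.sum_congr rfl (fun i _ => by rw [hfc z hz i])

theorem ballCor_succ (k N : ℕ) {δ K : ℝ} (hδ : 0 < δ) (hK : 0 ≤ K) (H : BallCor N (δ / 2) K k) :
    ∃ C, 0 ≤ C ∧ ∀ (J : Type) [Fintype J] [DecidableEq J] (T : Finset J) (j0 : J) (c : Fin N → J)
    (f : Fin N → ℂ → ℂ) (G : (J → ℂ) → ℂ) (j : J), j ∈ T → T.card ≤ k + 1 →
    (∀ i, c i ∈ T ∨ c i = j0 ∨ ∀ z ∈ ball (0 : ℂ) 1, f i z = 0) →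
    (∀ i, DifferentiableOn ℂ (f i) (ball 0 1)) → (∀ i, ∀ z ∈ ball (0 : ℂ) 1, ‖f i z‖ ≤ 1) →
    DifferentiableOn ℂ G (BJ J) → (∀ z ∈ BJ J, ‖G z‖ ≤ 1) →
    (∀ j ∈ T, ∀ z ∈ BJ J, ∀ z' ∈ BJ J, (∀ i, i ≠ j → z i = z' i) → G z = G z') →
    (∀ z ∈ BJ J, δ ≤ ∑ i, ‖f i (z (c i))‖ ^ 2 + ‖G z‖ ^ 2) →
    ∃ (g : Fin N → (J → ℂ) → ℂ) (g₀ : (J → ℂ) → ℂ),
      (∀ i, DifferentiableOn ℂ (g i) (BJ J)) ∧ DifferentiableOn ℂ g₀ (BJ J) ∧
      (∀ i, ∀ z ∈ BJ J, ‖g i z‖ ≤ C) ∧ (∀ z ∈ BJ J, ‖g₀ z‖ ≤ C) ∧
      ∀ z ∈ BJ J, ∑ i, f i (z (c i)) * g i z + G z * g₀ z = 1 := by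
  set ε : ℝ := min 1 (δ / (2 * (N + 1))) with hε
  have hN : (0 : ℝ) < N + 1 := by positivity
  have hε0 : 0 < ε := lt_min one_pos (by positivity)
  obtain ⟨C, hC⟩ := peel N (N + 1) (ε := ε) (K := K) hε0 (min_le_left _ _) hK
  refine ⟨max C 0, le_max_right _ _, ?_⟩
  intro J _ _ T j0 c f G j hj hT hc hf hfb hG hGb hGi hlow
  -- the functions of the coordinate `j`
  set fj : Fin N → ℂ → ℂ := fun i w => if c i = j then f i w else 0 with hfj
  have hfjd : ∀ i, DifferentiableOn ℂ (fj i) (ball 0 1) := by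
    intro i
    by_cases h : c i = j
    · simp only [hfj, h, if_true]
      exact hf i
    · simp only [hfj, h, if_false]
      exact differentiableOn_const _
  have hfjb : ∀ i, ∀ z ∈ ball (0 : ℂ) 1, ‖fj i z‖ ≤ 1 := by
    intro i z hz
    by_cases h : c i = j
    · simp only [hfj, h, if_true]
      exact hfb i z hz
    · simp only [hfj, h, if_false, norm_zero]
      exact zero_le_one
  -- the other functions
  set Rf : Fin N → (J → ℂ) → ℂ := fun i z => if c i = j then 0 else f i (z (c i)) with hRf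
  have hRfd : ∀ i, DifferentiableOn ℂ (Rf i) (BJ J) := by
    intro i
    by_cases h : c i = j
    · simp only [hRf, h, if_true]
      exact differentiableOn_const _
    · simp only [hRf, h, if_false]
      have h1 : DifferentiableOn ℂ (fun z : J → ℂ => z (c i)) (BJ J) := by
        apply Differentiable.differentiableOn
        fun_prop
      exact (hf i).comp h1 (fun z hz => coord_mem hz _)
  have hRfb : ∀ i, ∀ z ∈ BJ J, ‖Rf i z‖ ≤ 1 := by
    intro i z hz
    by_cases h : c i = j
    · simp only [hRf, h, if_true, norm_zero]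
      exact zero_le_one
    · simp only [hRf, h, if_false]
      exact hfb i _ (coord_mem hz _)
  -- local solutions
  have hloc : ∃ (k0 : (J → ℂ) → ℂ) (kk : Fin N → (J → ℂ) → ℂ),
      DifferentiableOn ℂ k0 {z | z ∈ BJ J ∧ ∀ i, ‖fj i (z j)‖ < ε} ∧
      (∀ m, DifferentiableOn ℂ (kk m) {z | z ∈ BJ J ∧ ∀ i, ‖fj i (z j)‖ < ε}) ∧
      (∀ z ∈ BJ J, (∀ i, ‖fj i (z j)‖ < ε) → ‖k0 z‖ ≤ K) ∧
      (∀ m, ∀ z ∈ BJ J, (∀ i, ‖fj i (z j)‖ < ε) → ‖kk m z‖ ≤ K) ∧
      (∀ z ∈ BJ J, (∀ i, ‖fj i (z j)‖ < ε) → G z * k0 z + ∑ m, Rf m z * kk m z = 1) := by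
    set W : Set ℂ := {w | w ∈ ball (0 : ℂ) 1 ∧ ∀ i, ‖fj i w‖ < ε} with hW
    rcases W.eq_empty_or_nonempty with hWe | hWn
    · have hno : ∀ z ∈ BJ J, ¬ ∀ i, ‖fj i (z j)‖ < ε := by
        intro z hz hi
        have : z j ∈ W := ⟨coord_mem hz j, hi⟩
        rw [hWe] at this
        exact this
      refine ⟨fun _ => 0, fun _ _ => 0, differentiableOn_const _, fun _ => differentiableOn_const _,
        fun z hz hi => absurd hi (hno z hz), fun m z hz hi => absurd hi (hno z hz),
        fun z hz hi => absurd hi (hno z hz)⟩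
    · set A : Set ℝ := (fun w : ℂ => 1 - ‖w‖ ^ 2) '' W with hA
      have hAn : A.Nonempty := hWn.image _
      have hAb : BddAbove A := ⟨1, by
        rintro x ⟨w, -, rfl⟩
        have : 0 ≤ ‖w‖ ^ 2 := by positivity
        linarith⟩
      set s2 : ℝ := sSup A with hs2
      have hle : ∀ w ∈ W, 1 - ‖w‖ ^ 2 ≤ s2 := fun w hw => le_csSup hAb ⟨w, hw, rfl⟩
      have hs2pos : 0 < s2 := by
        obtain ⟨w, hw⟩ := hWn
        exact lt_of_lt_of_le (lg_pos hw.1) (hle w hw)
      have hs21 : s2 ≤ 1 := csSup_le hAn (by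
        rintro x ⟨w, -, rfl⟩
        have : 0 ≤ ‖w‖ ^ 2 := by positivity
        linarith)
      set s : ℝ := Real.sqrt s2 with hs
      have hs0 : 0 < s := Real.sqrt_pos.2 hs2pos
      have hss : s ^ 2 = s2 := Real.sq_sqrt hs2pos.le
      have hs1 : s ≤ 1 := by nlinarith
      have hsn : ‖(s : ℂ)‖ = s := by rw [Complex.norm_real, Real.norm_of_nonneg hs0.le]
      have hsne : (s : ℂ) ≠ 0 := by exact_mod_cast hs0.ne'
      -- scaling maps the ball into itself
      have hsc : ∀ x ∈ BJ J, (s : ℂ) • x ∈ BJ J := by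
        intro x hx
        have hx' : ∑ i, ‖x i‖ ^ 2 < 1 := hx
        change ∑ i, ‖((s : ℂ) • x) i‖ ^ 2 < 1
        have h1 : ∑ i, ‖((s : ℂ) • x) i‖ ^ 2 = s2 * ∑ i, ‖x i‖ ^ 2 := by
          rw [Finset.mul_sum]
          refine Finset.sum_congr rfl (fun i _ => ?_)
          rw [Pi.smul_apply, smul_eq_mul, norm_mul, mul_pow, hsn, hss]
        rw [h1]
        have h2 : 0 ≤ ∑ i, ‖x i‖ ^ 2 := Finset.sum_nonneg fun i _ => by positivity
        nlinarith
      have hscd : ∀ w ∈ ball (0 : ℂ) 1, (s : ℂ) * w ∈ ball (0 : ℂ) 1 := by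
        intro w hw
        rw [mem_ball_zero_iff] at hw ⊢
        rw [norm_mul, hsn]
        nlinarith [norm_nonneg w]
      -- rescaled data
      set fs : Fin N → ℂ → ℂ := fun i w => if c i = j then 0 else f i ((s : ℂ) * w) with hfs
      set Gs : (J → ℂ) → ℂ := fun x => G ((s : ℂ) • x) with hGs
      have hsd : Differentiable ℂ (fun w : ℂ => (s : ℂ) * w) := by fun_prop
      have hsD : Differentiable ℂ (fun x : J → ℂ => (s : ℂ) • x) := by fun_prop
      obtain ⟨g, g₀, b1, b2, b3, b4, b5⟩ := H J (T.erase j) j0 c fs Gs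
        (by rw [Finset.card_erase_of_mem hj]; omega)
        (by
          intro i
          by_cases h : c i = j
          · right; right
            intro z _
            simp only [hfs, h, if_true]
          · rcases hc i with h1 | h1 | h1
            · exact Or.inl (Finset.mem_erase.2 ⟨h, h1⟩)
            · exact Or.inr (Or.inl h1)
            · right; right
              intro z hz
              simp only [hfs, h, if_false]
              exact h1 _ (hscd z hz))
        (by
          intro i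
          by_cases h : c i = j
          · simp only [hfs, h, if_true]
            exact differentiableOn_const _
          · simp only [hfs, h, if_false]
            exact (hf i).comp hsd.differentiableOn (fun w hw => hscd w hw))
        (by
          intro i z hz
          by_cases h : c i = j
          · simp only [hfs, h, if_true, norm_zero]
            exact zero_le_one
          · simp only [hfs, h, if_false]
            exact hfb i _ (hscd z hz))
        (hG.comp hsD.differentiableOn (fun x hx => hsc x hx))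
        (fun x hx => hGb _ (hsc x hx))
        (by
          intro j' hj' z hz z' hz' hzz
          refine hGi j' (Finset.mem_of_mem_erase hj') _ (hsc z hz) _ (hsc z' hz') ?_
          intro i hi
          simp only [Pi.smul_apply, hzz i hi])
        (by
          intro x hx
          have hx' : ∑ i, ‖x i‖ ^ 2 < 1 := hx
          have h1 : ∑ i ∈ Finset.univ.erase j, ‖x i‖ ^ 2 < 1 :=
            lt_of_le_of_lt (Finset.sum_le_sum_of_subset_of_nonneg (Finset.erase_subset _ _)
              (fun i _ _ => by positivity)) hx'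
          have h0 : 0 ≤ ∑ i ∈ Finset.univ.erase j, ‖x i‖ ^ 2 :=
            Finset.sum_nonneg fun i _ => by positivity
          have h2 : s2 * ∑ i ∈ Finset.univ.erase j, ‖x i‖ ^ 2 < s2 := by nlinarith
          obtain ⟨_, ⟨w, hw, rfl⟩, hw2⟩ := exists_lt_of_lt_csSup hAn h2
          have hw3 : s2 * ∑ i ∈ Finset.univ.erase j, ‖x i‖ ^ 2 < 1 - ‖w‖ ^ 2 := hw2
          set zs : J → ℂ := Function.update ((s : ℂ) • x) j w with hzs
          have hzsm : zs ∈ BJ J := by
            change ∑ i, ‖Function.update ((s : ℂ) • x) j w i‖ ^ 2 < 1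
            rw [upd_sum]
            have h3 : ∑ i ∈ Finset.univ.erase j, ‖((s : ℂ) • x) i‖ ^ 2 =
                s2 * ∑ i ∈ Finset.univ.erase j, ‖x i‖ ^ 2 := by
              rw [Finset.mul_sum]
              refine Finset.sum_congr rfl (fun i _ => ?_)
              rw [Pi.smul_apply, smul_eq_mul, norm_mul, mul_pow, hsn, hss]
            rw [h3]
            linarith
          have h4 := hlow zs hzsm
          have h5 : G zs = Gs x := by
            refine hGi j hj _ hzsm _ (hsc x hx) (fun i hi => ?_)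
            rw [hzs, Function.update_of_ne hi]
          have h6 : ∀ i, ‖f i (zs (c i))‖ ^ 2 = ‖fj i w‖ ^ 2 + ‖fs i (x (c i))‖ ^ 2 := by
            intro i
            by_cases h : c i = j
            · simp only [hfj, hfs, h, if_true, norm_zero]
              rw [hzs, Function.update_self]
              ring
            · simp only [hfj, hfs, h, if_false, norm_zero]
              rw [hzs, Function.update_of_ne h, Pi.smul_apply, smul_eq_mul]
              ring
          rw [Finset.sum_congr rfl (fun i _ => h6 i), Finset.sum_add_distrib, h5] at h4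
          have h7 := small_sum hδ hw.2
          linarith)
      -- the projection
      set P : (J → ℂ) → (J → ℂ) := fun z => (s : ℂ)⁻¹ • Function.update z j 0 with hP
      have hPd : Differentiable ℂ P := by
        have h1 : Differentiable ℂ (fun z : J → ℂ => Function.update z j (0 : ℂ)) := by
          have h2 := (upd_diff (J := J) j).comp
            (f := fun z : J → ℂ => ((0 : ℂ), z)) (by fun_prop)
          exact h2
        exact h1.const_smul ((s : ℂ)⁻¹)
      have hPm : ∀ z ∈ BJ J, (∀ i, ‖fj i (z j)‖ < ε) → P z ∈ BJ J := by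
        intro z hz hi
        have hz' : ∑ i, ‖z i‖ ^ 2 < 1 := hz
        rw [← Finset.add_sum_erase Finset.univ _ (Finset.mem_univ j)] at hz'
        have h1 := hle (z j) ⟨coord_mem hz j, hi⟩
        change ∑ i, ‖((s : ℂ)⁻¹ • Function.update z j 0) i‖ ^ 2 < 1
        have h2 : ∑ i, ‖((s : ℂ)⁻¹ • Function.update z j 0) i‖ ^ 2 =
            s2⁻¹ * ∑ i, ‖Function.update z j 0 i‖ ^ 2 := by
          rw [Finset.mul_sum]
          refine Finset.sum_congr rfl (fun i _ => ?_)
          rw [Pi.smul_apply, smul_eq_mul, norm_mul, mul_pow, norm_inv, hsn, inv_pow, hss]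
        rw [h2, upd_sum, norm_zero, inv_mul_lt_iff₀ hs2pos]
        nlinarith
      have hupd : ∀ z ∈ BJ J, Function.update z j 0 ∈ BJ J := by
        intro z hz
        have hz' : ∑ i, ‖z i‖ ^ 2 < 1 := hz
        rw [← Finset.add_sum_erase Finset.univ _ (Finset.mem_univ j)] at hz'
        change ∑ i, ‖Function.update z j 0 i‖ ^ 2 < 1
        rw [upd_sum, norm_zero]
        nlinarith [sq_nonneg ‖z j‖]
      have hsP : ∀ z : J → ℂ, (s : ℂ) • P z = Function.update z j 0 := by
        intro z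
        rw [hP]
        simp only
        rw [smul_smul, mul_inv_cancel₀ hsne, one_smul]
      refine ⟨fun z => g₀ (P z), fun i z => g i (P z), ?_, ?_, ?_, ?_, ?_⟩
      · exact b2.comp hPd.differentiableOn (fun z hz => hPm z hz.1 hz.2)
      · intro i
        exact (b1 i).comp hPd.differentiableOn (fun z hz => hPm z hz.1 hz.2)
      · intro z hz hi
        exact b4 _ (hPm z hz hi)
      · intro i z hz hi
        exact b3 i _ (hPm z hz hi)
      · intro z hz hi
        have h1 := b5 _ (hPm z hz hi)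
        have h2 : Gs (P z) = G z := by
          simp only [hGs, hsP]
          refine hGi j hj _ (hupd z hz) _ hz (fun i hi => ?_)
          rw [Function.update_of_ne hi]
        have h3 : ∀ i, fs i (P z (c i)) = Rf i z := by
          intro i
          by_cases h : c i = j
          · simp only [hfs, hRf, h, if_true]
          · simp only [hfs, hRf, h, if_false]
            have h4 : (s : ℂ) * P z (c i) = ((s : ℂ) • P z) (c i) := rfl
            rw [h4, hsP, Function.update_of_ne h]
        rw [h2, Finset.sum_congr rfl (fun i _ => by rw [h3 i])] at h1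
        rw [add_comm]
        exact h1
  obtain ⟨k0, kk, d1, d2, d3, d4, d5⟩ := hloc
  obtain ⟨g, g₀, e1, e2, e3, e4, e5⟩ := hC J j fj hfjd hfjb (Fin.cons G Rf)
    (by
      intro m
      refine Fin.cases ?_ (fun i => ?_) m
      · simpa only [Fin.cons_zero] using hG
      · simpa only [Fin.cons_succ] using hRfd i)
    (by
      intro m
      refine Fin.cases ?_ (fun i => ?_) m
      · simpa only [Fin.cons_zero] using hGb
      · simpa only [Fin.cons_succ] using hRfb i)
    (Fin.cons k0 kk)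
    (by
      intro m
      refine Fin.cases ?_ (fun i => ?_) m
      · simpa only [Fin.cons_zero] using d1
      · simpa only [Fin.cons_succ] using d2 i)
    (by
      intro m
      refine Fin.cases ?_ (fun i => ?_) m
      · simpa only [Fin.cons_zero] using d3
      · simpa only [Fin.cons_succ] using d4 i)
    (by
      intro z hz hi
      rw [Fin.sum_univ_succ]
      simp only [Fin.cons_zero, Fin.cons_succ]
      exact d5 z hz hi)
  refine ⟨fun i => if c i = j then g i else g₀ i.succ, g₀ 0, ?_, e2 0, ?_,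
    fun z hz => (e4 0 z hz).trans (le_max_left _ _), ?_⟩
  · intro i
    by_cases h : c i = j
    · simp only [h, if_true]
      exact e1 i
    · simp only [h, if_false]
      exact e2 _
  · intro i z hz
    by_cases h : c i = j
    · simp only [h, if_true]
      exact (e3 i z hz).trans (le_max_left _ _)
    · simp only [h, if_false]
      exact (e4 _ z hz).trans (le_max_left _ _)
  · intro z hz
    have h1 := e5 z hz
    rw [Fin.sum_univ_succ] at h1
    simp only [Fin.cons_zero, Fin.cons_succ] at h1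
    have h2 : ∀ i, f i (z (c i)) * (if c i = j then g i else g₀ i.succ) z =
        fj i (z j) * g i z + Rf i z * g₀ i.succ z := by
      intro i
      by_cases h : c i = j
      · simp only [hfj, hRf, h, if_true]
        ring
      · simp only [hfj, hRf, h, if_false]
        ring
    rw [Finset.sum_congr rfl (fun i _ => h2 i), Finset.sum_add_distrib, ← h1]
    ring

theorem ballCor (k : ℕ) : ∀ (N : ℕ) (δ : ℝ), 0 < δ → ∃ C, 0 ≤ C ∧ BallCor N δ C k := by
  induction k with
  | zero => exact fun N δ hδ => ballCor_zero N hδ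
  | succ k ih =>
    intro N δ hδ
    obtain ⟨K, hK, HK⟩ := ih N (δ / 2) (by positivity)
    obtain ⟨C1, hC1, H1⟩ := ballCor_succ k N hδ hK HK
    obtain ⟨C2, hC2, H2⟩ := ih N δ hδ
    refine ⟨max C1 C2, hC1.trans (le_max_left _ _), ?_⟩
    intro J _ _ T j0 c f G hT hc hf hfb hG hGb hGi hlow
    by_cases hTk : T.card ≤ k
    · exact (H2.mono (le_max_right C1 C2)) J T j0 c f G hTk hc hf hfb hG hGb hGi hlow
    · have hTn : T.Nonempty := by
        rw [← Finset.card_pos]
        omega
      obtain ⟨j, hj⟩ := hTn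
      obtain ⟨g, g₀, e1, e2, e3, e4, e5⟩ := H1 J T j0 c f G j hj hT hc hf hfb hG hGb hGi hlow
      exact ⟨g, g₀, e1, e2, fun i z hz => (e3 i z hz).trans (le_max_left _ _),
        fun z hz => (e4 z hz).trans (le_max_left _ _), e5⟩

end Pool.Agent.H788R3.Cor3
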