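import Mathlib
import Pool.Agent.H788R3.Cor3.Ind

/-!
Corona theorem on Hartogs domains with ball fibres over simply connected plane domains, for data
each of which depends on one coordinate.
-/

set_option autoImplicit false
set_option linter.unusedSectionVars false

open MeasureTheory Metric Set Filter Topology Complex
open scoped ContDiff

namespace Pool.Agent.H788R3.Cor3

open Pool.Agent.H788R3.Cor2

/-- all values of one coordinate `y_j` on the domain with ball fibres -/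
def cD (U : Set ℂ) (φ : ℂ → ℝ) : Set ℂ := {w | ∃ z ∈ U, Real.exp (φ z) * ‖w‖ < 1}

/-- projection of the domain with ball fibres -/
def pD {n : ℕ} (U : Set ℂ) (φ : ℂ → ℝ) : Set (Fin n → ℂ) :=
  {y | ∃ z ∈ U, ∑ j, (Real.exp (φ z) * ‖y j‖) ^ 2 < 1}

/-- the domain with ball fibres -/
def FD {n : ℕ} (U : Set ℂ) (φ : ℂ → ℝ) : Set (ℂ × (Fin n → ℂ)) :=
  {p | p.1 ∈ U ∧ ∑ j, (Real.exp (φ p.1) * ‖p.2 j‖) ^ 2 < 1}

theorem FD_eq {n : ℕ} (U : Set ℂ) (φ : ℂ → ℝ) :
    (FD U φ : Set (ℂ × (Fin n → ℂ))) = Dom U (fun _ => φ) {x | ∑ j, x j ^ 2 < 1} := rfl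

theorem retr_FD {n : ℕ} {U : Set ℂ} (hU : IsOpen U) {φ : ℂ → ℝ} (hφ : ContinuousOn φ U)
    (hA : ∃ A : ℂ → ℂ → ℂ, (∀ c ∈ U, DifferentiableOn ℂ (A c) U) ∧ (∀ c ∈ U, A c c = 1) ∧
        (∀ c ∈ U, ∀ z ∈ U, ‖A c z‖ ≤ Real.exp (φ z - φ c)) ∧
        ContinuousOn (fun q : ℂ × ℂ => A q.1 q.2) (U ×ˢ U)) :
    ∃ Λ : ℂ → ℂ × (Fin n → ℂ) → (Fin n → ℂ), RetrU U (FD U φ) Λ := by
  obtain ⟨A, h1, h2, h3, h4⟩ := hA
  refine ⟨LL (fun _ : Fin n => A), ?_⟩
  rw [FD_eq]
  refine retr_dom hU (fun _ => hφ) ?_ ?_ (fun _ => h1) (fun _ => h2) (fun _ => h3) (fun _ => h4)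
  · exact isOpen_lt (by fun_prop) continuous_const
  · intro x hx y hy
    have hx' : ∑ j, x j ^ 2 < 1 := hx
    change ∑ j, y j ^ 2 < 1
    refine lt_of_le_of_lt (Finset.sum_le_sum (fun j _ => ?_)) hx'
    exact pow_le_pow_left₀ (hy j).1 (hy j).2 2

theorem sq_sum_scale {n : ℕ} (t : ℝ) (y : Fin n → ℂ) :
    ∑ j, (t * ‖y j‖) ^ 2 = t ^ 2 * ∑ j, ‖y j‖ ^ 2 := by
  rw [Finset.mul_sum]
  exact Finset.sum_congr rfl (fun j _ => by ring)

/-- **Corona theorem on Hartogs domains with ball fibres.** -/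
theorem fib (N M : ℕ) {δ : ℝ} (hδ : 0 < δ) : ∃ C : ℝ,
    ∀ (n : ℕ) (U : Set ℂ) (φ : ℂ → ℝ), IsOpen U → IsSimplyConnected U → U.Nonempty → U ≠ univ →
    ContinuousOn φ U →
    (∃ A : ℂ → ℂ → ℂ, (∀ c ∈ U, DifferentiableOn ℂ (A c) U) ∧ (∀ c ∈ U, A c c = 1) ∧
        (∀ c ∈ U, ∀ z ∈ U, ‖A c z‖ ≤ Real.exp (φ z - φ c)) ∧
        ContinuousOn (fun q : ℂ × ℂ => A q.1 q.2) (U ×ˢ U)) →
    ∀ (f : Fin N → ℂ → ℂ), (∀ i, DifferentiableOn ℂ (f i) U) → (∀ i, ∀ z ∈ U, ‖f i z‖ ≤ 1) →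
    ∀ (c : Fin M → Fin n) (j0 : Fin n) (h : Fin M → ℂ → ℂ),
    (∀ m, DifferentiableOn ℂ (h m) (cD U φ)) → (∀ m, ∀ w ∈ cD U φ, ‖h m w‖ ≤ 1) →
    ∀ G : (Fin n → ℂ) → ℂ, DifferentiableOn ℂ G (pD U φ) → (∀ y ∈ pD U φ, ‖G y‖ ≤ 1) →
    (∀ m, c m ≠ j0 → ∀ y ∈ pD U φ, ∀ y' ∈ pD U φ, (∀ l, l ≠ c m → y l = y' l) → G y = G y') →
    (∀ p ∈ FD U φ, δ ≤ ∑ i, ‖f i p.1‖ ^ 2 + ∑ m, ‖h m (p.2 (c m))‖ ^ 2 + ‖G p.2‖ ^ 2) →
    ∃ (g : Fin N → ℂ × (Fin n → ℂ) → ℂ) (k : Fin M → ℂ × (Fin n → ℂ) → ℂ)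
      (g₀ : ℂ × (Fin n → ℂ) → ℂ),
      (∀ i, DifferentiableOn ℂ (g i) (FD U φ)) ∧ (∀ m, DifferentiableOn ℂ (k m) (FD U φ)) ∧
      DifferentiableOn ℂ g₀ (FD U φ) ∧
      (∀ i, ∀ p ∈ FD U φ, ‖g i p‖ ≤ C) ∧ (∀ m, ∀ p ∈ FD U φ, ‖k m p‖ ≤ C) ∧
      (∀ p ∈ FD U φ, ‖g₀ p‖ ≤ C) ∧
      ∀ p ∈ FD U φ, ∑ i, f i p.1 * g i p + ∑ m, h m (p.2 (c m)) * k m p + G p.2 * g₀ p = 1 := by
  set ε : ℝ := min 1 (δ / (2 * (N + 1))) with hε
  have hN : (0 : ℝ) < N + 1 := by positivity
  have hε0 : 0 < ε := lt_min one_pos (by positivity)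
  obtain ⟨K0, hK0, HK⟩ := ballCor M M (δ / 2) (by positivity)
  set K : ℝ := max K0 (2 / δ) with hK
  have hKpos : 0 ≤ K := hK0.trans (le_max_left _ _)
  obtain ⟨C, hC⟩ := siegel3 N (M + 1) (ε := ε) (K := K) hε0 (min_le_left _ _) hKpos
  refine ⟨C, ?_⟩
  intro n U φ hU hUc hUn hUu hφ hA f hf hfb c j0 h hh hhb G hG hGb hGi hlow
  obtain ⟨Λ, hR⟩ := retr_FD (n := n) hU hφ hA
  have hexp : ∀ z, 0 < Real.exp (φ z) := fun z => Real.exp_pos _
  have hproj : ∀ p ∈ (FD U φ : Set (ℂ × (Fin n → ℂ))), p.2 ∈ (pD U φ : Set (Fin n → ℂ)) :=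
    fun p hp => ⟨p.1, hp.1, hp.2⟩
  have hcoord : ∀ (y : Fin n → ℂ) (z : ℂ) (l : Fin n), z ∈ U →
      ∑ j, (Real.exp (φ z) * ‖y j‖) ^ 2 < 1 → y l ∈ cD U φ := by
    intro y z l hz hy
    refine ⟨z, hz, ?_⟩
    have h1 : (Real.exp (φ z) * ‖y l‖) ^ 2 ≤ ∑ j, (Real.exp (φ z) * ‖y j‖) ^ 2 :=
      Finset.single_le_sum (f := fun j => (Real.exp (φ z) * ‖y j‖) ^ 2)
        (fun i _ => by positivity) (Finset.mem_univ l)
    have h2 : 0 ≤ Real.exp (φ z) * ‖y l‖ := by positivity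
    nlinarith
  -- local solutions
  have hloc : ∃ (k0 : ℂ × (Fin n → ℂ) → ℂ) (kk : Fin M → ℂ × (Fin n → ℂ) → ℂ),
      DifferentiableOn ℂ k0 {p | p ∈ FD U φ ∧ ∀ i, ‖f i p.1‖ < ε} ∧
      (∀ m, DifferentiableOn ℂ (kk m) {p | p ∈ FD U φ ∧ ∀ i, ‖f i p.1‖ < ε}) ∧
      (∀ p ∈ FD U φ, (∀ i, ‖f i p.1‖ < ε) → ‖k0 p‖ ≤ K) ∧
      (∀ m, ∀ p ∈ FD U φ, (∀ i, ‖f i p.1‖ < ε) → ‖kk m p‖ ≤ K) ∧
      (∀ p ∈ FD U φ, (∀ i, ‖f i p.1‖ < ε) →
        G p.2 * k0 p + ∑ m, h m (p.2 (c m)) * kk m p = 1) := by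
    set W : Set ℂ := {w | w ∈ U ∧ ∀ i, ‖f i w‖ < ε} with hW
    rcases W.eq_empty_or_nonempty with hWe | hWn
    · have hno : ∀ p ∈ (FD U φ : Set (ℂ × (Fin n → ℂ))), ¬ ∀ i, ‖f i p.1‖ < ε := by
        intro p hp hi
        have : p.1 ∈ W := ⟨hp.1, hi⟩
        rw [hWe] at this
        exact this
      exact ⟨fun _ => 0, fun _ _ => 0, differentiableOn_const _, fun _ => differentiableOn_const _,
        fun p hp hi => absurd hi (hno p hp), fun m p hp hi => absurd hi (hno p hp),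
        fun p hp hi => absurd hi (hno p hp)⟩
    · set A : Set ℝ := (fun z : ℂ => Real.exp (-φ z)) '' W with hAdef
      have hAn : A.Nonempty := hWn.image _
      by_cases hAb : BddAbove A
      · set s : ℝ := sSup A with hs
        have hle : ∀ w ∈ W, Real.exp (-φ w) ≤ s := fun w hw => le_csSup hAb ⟨w, hw, rfl⟩
        have hs0 : 0 < s := by
          obtain ⟨w, hw⟩ := hWn
          exact lt_of_lt_of_le (Real.exp_pos _) (hle w hw)
        have hsn : ‖(s : ℂ)‖ = s := by rw [Complex.norm_real, Real.norm_of_nonneg hs0.le]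
        have hsne : (s : ℂ) ≠ 0 := by exact_mod_cast hs0.ne'
        have hsup : ∀ t : ℝ, 0 ≤ t → t < 1 → ∃ z ∈ W, Real.exp (φ z) * (s * t) < 1 := by
          intro t ht ht1
          have h1 : s * t < s := by nlinarith
          obtain ⟨_, ⟨z, hz, rfl⟩, hz2⟩ := exists_lt_of_lt_csSup hAn h1
          refine ⟨z, hz, ?_⟩
          have h2 : s * t < Real.exp (-φ z) := hz2
          calc Real.exp (φ z) * (s * t) < Real.exp (φ z) * Real.exp (-φ z) :=
                mul_lt_mul_of_pos_left h2 (hexp z)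
            _ = 1 := by rw [← Real.exp_add]; simp
        have hkey : ∀ x ∈ BJ (Fin n), ∃ z ∈ W,
            ∑ j, (Real.exp (φ z) * ‖((s : ℂ) • x) j‖) ^ 2 < 1 := by
          intro x hx
          have hx' : ∑ i, ‖x i‖ ^ 2 < 1 := hx
          have h0 : 0 ≤ ∑ i, ‖x i‖ ^ 2 := Finset.sum_nonneg fun i _ => by positivity
          obtain ⟨z, hz, hz2⟩ := hsup (Real.sqrt (∑ i, ‖x i‖ ^ 2)) (Real.sqrt_nonneg _)
            (by rw [Real.sqrt_lt' one_pos]; simpa using hx')
          refine ⟨z, hz, ?_⟩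
          have h1 : ∑ j, (Real.exp (φ z) * ‖((s : ℂ) • x) j‖) ^ 2 =
              (Real.exp (φ z) * (s * Real.sqrt (∑ i, ‖x i‖ ^ 2))) ^ 2 := by
            have h3 : ∑ j, ‖((s : ℂ) • x) j‖ ^ 2 = s ^ 2 * ∑ j, ‖x j‖ ^ 2 := by
              rw [Finset.mul_sum]
              refine Finset.sum_congr rfl (fun j _ => ?_)
              rw [Pi.smul_apply, smul_eq_mul, norm_mul, hsn, mul_pow]
            rw [mul_pow, mul_pow, Real.sq_sqrt h0, sq_sum_scale, h3]
          rw [h1]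
          have h2 : 0 ≤ Real.exp (φ z) * (s * Real.sqrt (∑ i, ‖x i‖ ^ 2)) := by positivity
          nlinarith
        have hkey2 : ∀ w ∈ ball (0 : ℂ) 1, (s : ℂ) * w ∈ cD U φ := by
          intro w hw
          rw [mem_ball_zero_iff] at hw
          obtain ⟨z, hz, hz2⟩ := hsup ‖w‖ (norm_nonneg _) hw
          refine ⟨z, hz.1, ?_⟩
          rw [norm_mul, hsn]
          exact hz2
        have hsm : ∀ x ∈ BJ (Fin n), (s : ℂ) • x ∈ (pD U φ : Set (Fin n → ℂ)) := by
          intro x hx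
          obtain ⟨z, hz, hz2⟩ := hkey x hx
          exact ⟨z, hz.1, hz2⟩
        have hsd : Differentiable ℂ (fun w : ℂ => (s : ℂ) * w) := by fun_prop
        have hsD : Differentiable ℂ (fun x : Fin n → ℂ => (s : ℂ) • x) := by fun_prop
        obtain ⟨g, g₀, b1, b2, b3, b4, b5⟩ := HK (Fin n) ((Finset.univ.image c).erase j0) j0 c
          (fun m w => h m ((s : ℂ) * w)) (fun x => G ((s : ℂ) • x))
          (by
            refine (Finset.card_erase_le).trans (Finset.card_image_le.trans ?_)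
            simp)
          (by
            intro m
            by_cases hm : c m = j0
            · exact Or.inr (Or.inl hm)
            · exact Or.inl (Finset.mem_erase.2 ⟨hm, Finset.mem_image_of_mem _ (Finset.mem_univ _)⟩))
          (fun m => (hh m).comp hsd.differentiableOn (fun w hw => hkey2 w hw))
          (fun m w hw => hhb m _ (hkey2 w hw))
          (hG.comp hsD.differentiableOn (fun x hx => hsm x hx))
          (fun x hx => hGb _ (hsm x hx))
          (by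
            intro j hj z hz z' hz' hzz
            obtain ⟨hj1, hj2⟩ := Finset.mem_erase.1 hj
            obtain ⟨m, -, rfl⟩ := Finset.mem_image.1 hj2
            refine hGi m hj1 _ (hsm z hz) _ (hsm z' hz') ?_
            intro i hi
            simp only [Pi.smul_apply, hzz i hi])
          (by
            intro x hx
            obtain ⟨z, hz, hz2⟩ := hkey x hx
            have h1 := hlow (z, (s : ℂ) • x) ⟨hz.1, hz2⟩
            have h2 := small_sum hδ hz.2
            have h3 : ∀ m, ((s : ℂ) • x) (c m) = (s : ℂ) * x (c m) := fun m => rfl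
            simp only [h3] at h1
            linarith)
        have hPm : ∀ p ∈ (FD U φ : Set (ℂ × (Fin n → ℂ))), (∀ i, ‖f i p.1‖ < ε) →
            (s : ℂ)⁻¹ • p.2 ∈ BJ (Fin n) := by
          intro p hp hi
          have h1 := hle p.1 ⟨hp.1, hi⟩
          have h2 : ∑ j, (Real.exp (φ p.1) * ‖p.2 j‖) ^ 2 < 1 := hp.2
          rw [sq_sum_scale] at h2
          change ∑ i, ‖((s : ℂ)⁻¹ • p.2) i‖ ^ 2 < 1
          have h3 : ∑ i, ‖((s : ℂ)⁻¹ • p.2) i‖ ^ 2 = (s ^ 2)⁻¹ * ∑ i, ‖p.2 i‖ ^ 2 := by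
            rw [Finset.mul_sum]
            refine Finset.sum_congr rfl (fun i _ => ?_)
            rw [Pi.smul_apply, smul_eq_mul, norm_mul, mul_pow, norm_inv, hsn, inv_pow]
          rw [h3, inv_mul_lt_iff₀ (by positivity), mul_one]
          have h4 : 1 ≤ Real.exp (φ p.1) * s := by
            calc (1 : ℝ) = Real.exp (φ p.1) * Real.exp (-φ p.1) := by
                  rw [← Real.exp_add]; simp
              _ ≤ _ := mul_le_mul_of_nonneg_left h1 (hexp _).le
          have h5 : 0 ≤ ∑ i, ‖p.2 i‖ ^ 2 := Finset.sum_nonneg fun i _ => by positivity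
          have h6 : 1 ≤ Real.exp (φ p.1) ^ 2 * s ^ 2 := by
            rw [← mul_pow]
            exact one_le_pow₀ h4
          have h7 : 0 < Real.exp (φ p.1) ^ 2 := by positivity
          have h8 : Real.exp (φ p.1) ^ 2 * ∑ i, ‖p.2 i‖ ^ 2 < Real.exp (φ p.1) ^ 2 * s ^ 2 := by
            linarith
          exact lt_of_mul_lt_mul_left h8 h7.le
        have hPd : Differentiable ℂ (fun p : ℂ × (Fin n → ℂ) => (s : ℂ)⁻¹ • p.2) := by fun_prop
        refine ⟨fun p => g₀ ((s : ℂ)⁻¹ • p.2), fun m p => g m ((s : ℂ)⁻¹ • p.2), ?_, ?_, ?_, ?_, ?_⟩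
        · exact b2.comp hPd.differentiableOn (fun p hp => hPm p hp.1 hp.2)
        · intro m
          exact (b1 m).comp hPd.differentiableOn (fun p hp => hPm p hp.1 hp.2)
        · intro p hp hi
          exact (b4 _ (hPm p hp hi)).trans (le_max_left _ _)
        · intro m p hp hi
          exact (b3 m _ (hPm p hp hi)).trans (le_max_left _ _)
        · intro p hp hi
          have h1 := b5 _ (hPm p hp hi)
          have h2 : (s : ℂ) • ((s : ℂ)⁻¹ • p.2) = p.2 := by
            rw [smul_smul, mul_inv_cancel₀ hsne, one_smul]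
          have h3 : ∀ m, (s : ℂ) * ((s : ℂ)⁻¹ • p.2) (c m) = p.2 (c m) := by
            intro m
            rw [Pi.smul_apply, smul_eq_mul, ← mul_assoc, mul_inv_cancel₀ hsne, one_mul]
          simp only [h2, h3] at h1
          rw [add_comm]
          exact h1
      · -- Liouville
        have hbig : ∀ L : ℝ, ∃ z ∈ W, L < Real.exp (-φ z) := by
          intro L
          by_contra hno
          push Not at hno
          apply hAb
          refine ⟨L, ?_⟩
          rintro _ ⟨z, hz, rfl⟩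
          exact hno z hz
        have hcu : cD U φ = univ := by
          refine eq_univ_of_forall (fun w => ?_)
          obtain ⟨z, hz, hz2⟩ := hbig ‖w‖
          refine ⟨z, hz.1, ?_⟩
          calc Real.exp (φ z) * ‖w‖ < Real.exp (φ z) * Real.exp (-φ z) :=
                mul_lt_mul_of_pos_left hz2 (hexp z)
            _ = 1 := by rw [← Real.exp_add]; simp
        have hpu : (pD U φ : Set (Fin n → ℂ)) = univ := by
          refine eq_univ_of_forall (fun y => ?_)
          obtain ⟨z, hz, hz2⟩ := hbig (Real.sqrt (∑ i, ‖y i‖ ^ 2))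
          refine ⟨z, hz.1, ?_⟩
          have h0 : 0 ≤ ∑ i, ‖y i‖ ^ 2 := Finset.sum_nonneg fun i _ => by positivity
          rw [sq_sum_scale]
          have h1 : Real.exp (φ z) * Real.sqrt (∑ i, ‖y i‖ ^ 2) < 1 := by
            calc Real.exp (φ z) * Real.sqrt (∑ i, ‖y i‖ ^ 2)
                < Real.exp (φ z) * Real.exp (-φ z) := mul_lt_mul_of_pos_left hz2 (hexp z)
              _ = 1 := by rw [← Real.exp_add]; simp
          have h2 : 0 ≤ Real.exp (φ z) * Real.sqrt (∑ i, ‖y i‖ ^ 2) := by positivity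
          have h3 : Real.exp (φ z) ^ 2 * ∑ i, ‖y i‖ ^ 2 =
              (Real.exp (φ z) * Real.sqrt (∑ i, ‖y i‖ ^ 2)) ^ 2 := by
            rw [mul_pow, Real.sq_sqrt h0]
          rw [h3]
          nlinarith
        have hhc : ∀ m w, h m w = h m 0 := by
          intro m w
          have h1 : Differentiable ℂ (h m) := by
            have := hh m
            rwa [hcu, differentiableOn_univ] at this
          refine h1.apply_eq_apply_of_bounded ?_ w 0
          refine isBounded_iff_forall_norm_le.2 ⟨1, ?_⟩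
          rintro _ ⟨w, rfl⟩
          exact hhb m w (by rw [hcu]; trivial)
        have hGc : ∀ y, G y = G 0 := by
          intro y
          have h1 : Differentiable ℂ G := by
            have := hG
            rwa [hpu, differentiableOn_univ] at this
          refine h1.apply_eq_apply_of_bounded ?_ y 0
          refine isBounded_iff_forall_norm_le.2 ⟨1, ?_⟩
          rintro _ ⟨w, rfl⟩
          exact hGb w (by rw [hpu]; trivial)
        obtain ⟨z0, hz0⟩ := hWn
        set S0 : ℝ := ∑ m, ‖h m 0‖ ^ 2 + ‖G 0‖ ^ 2 with hS0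
        have hS : δ / 2 ≤ S0 := by
          have h1 := hlow (z0, 0) ⟨hz0.1, by simp⟩
          have h2 := small_sum hδ hz0.2
          have h3 : ∀ m, ‖h m ((0 : Fin n → ℂ) (c m))‖ ^ 2 = ‖h m 0‖ ^ 2 := fun m => rfl
          simp only [h3] at h1
          rw [hS0]
          linarith
        have hS0p : 0 < S0 := lt_of_lt_of_le (by positivity) hS
        have hS0n : ‖(S0 : ℂ)‖ = S0 := by rw [Complex.norm_real, Real.norm_of_nonneg hS0p.le]
        have hS0ne : (S0 : ℂ) ≠ 0 := by exact_mod_cast hS0p.ne'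
        have hbd : ∀ a : ℂ, ‖a‖ ≤ 1 → ‖starRingEnd ℂ a / (S0 : ℂ)‖ ≤ K := by
          intro a ha
          rw [norm_div, RCLike.norm_conj, hS0n]
          have h1 : ‖a‖ / S0 ≤ 1 / (δ / 2) := by gcongr
          have h2 : 1 / (δ / 2) = 2 / δ := by rw [one_div, inv_div]
          rw [h2] at h1
          exact h1.trans (le_max_right _ _)
        refine ⟨fun _ => starRingEnd ℂ (G 0) / (S0 : ℂ), fun m _ => starRingEnd ℂ (h m 0) / (S0 : ℂ),
          differentiableOn_const _, fun _ => differentiableOn_const _, fun p _ _ =>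
          hbd _ (hGb 0 (by rw [hpu]; trivial)), fun m p _ _ => hbd _ (hhb m 0 (by rw [hcu]; trivial)),
          fun p _ _ => ?_⟩
        simp only [hhc, hGc]
        have h4 : ∀ a : ℂ, a * (starRingEnd ℂ a / (S0 : ℂ)) = ((‖a‖ ^ 2 : ℝ) : ℂ) / (S0 : ℂ) := by
          intro a
          rw [mul_div_assoc', Complex.mul_conj, Complex.normSq_eq_norm_sq]
        have h5 : ∀ p : ℂ × (Fin n → ℂ), G p.2 = G 0 := fun p => hGc _
        rw [h4 (G 0), Finset.sum_congr rfl (fun m _ => h4 (h m 0)), ← Finset.sum_div, ← add_div]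
        rw [div_eq_one_iff_eq hS0ne, hS0]
        push_cast
        ring
  obtain ⟨k0, kk, d1, d2, d3, d4, d5⟩ := hloc
  obtain ⟨g, g₀, e1, e2, e3, e4, e5⟩ := base_thm3 hε0 hC hU hUc hUu hUn hR f hf hfb
    (Fin.cons (fun p => G p.2) (fun m p => h m (p.2 (c m))))
    (by
      intro m
      refine Fin.cases ?_ (fun i => ?_) m
      · have h1 : DifferentiableOn ℂ (fun p : ℂ × (Fin n → ℂ) => G p.2) (FD U φ) :=
          hG.comp differentiableOn_snd (fun p hp => hproj p hp)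
        simpa only [Fin.cons_zero] using h1
      · have h2 : DifferentiableOn ℂ (fun p : ℂ × (Fin n → ℂ) => p.2 (c i)) (FD U φ) := by
          apply Differentiable.differentiableOn
          fun_prop
        have h1 : DifferentiableOn ℂ (fun p : ℂ × (Fin n → ℂ) => h i (p.2 (c i))) (FD U φ) :=
          (hh i).comp h2 (fun p hp => hcoord p.2 p.1 (c i) hp.1 hp.2)
        simpa only [Fin.cons_succ] using h1)
    (by
      intro m
      refine Fin.cases ?_ (fun i => ?_) m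
      · intro p hp
        simp only [Fin.cons_zero]
        exact hGb _ (hproj p hp)
      · intro p hp
        simp only [Fin.cons_succ]
        exact hhb i _ (hcoord p.2 p.1 (c i) hp.1 hp.2))
    (Fin.cons k0 kk)
    (by
      intro m
      refine Fin.cases ?_ (fun i => ?_) m
      · simpa only [Fin.cons_zero] using d1
      · simpa only [Fin.cons_succ] using d2 i)
    (by
      intro m
      refine Fin.cases ?_ (fun i => ?_) m
      · simpa only [Fin.cons_zero] using d3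
      · simpa only [Fin.cons_succ] using d4 i)
    (by
      intro z hz hi
      rw [Fin.sum_univ_succ]
      simp only [Fin.cons_zero, Fin.cons_succ]
      exact d5 z hz hi)
  refine ⟨g, fun m => g₀ m.succ, g₀ 0, e1, fun m => e2 _, e2 0, e3, fun m => e4 _, e4 0, ?_⟩
  intro p hp
  have h1 := e5 p hp
  rw [Fin.sum_univ_succ] at h1
  simp only [Fin.cons_zero, Fin.cons_succ] at h1
  rw [← h1]
  ring

end Pool.Agent.H788R3.Cor3
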