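import Mathlib
import Pool.Agent.H788R3.Cor3.Fib

/-!
Perturbation of the data, and the final forms of the theorems.
-/

set_option autoImplicit false
set_option linter.unusedSectionVars false

open MeasureTheory Metric Set Filter Topology Complex
open scoped ContDiff

namespace Pool.Agent.H788R3.Cor3

open Pool.Agent.H788R3.Cor2

/-- solutions for data close to data with solutions -/
theorem neumann {X : Type} [NormedAddCommGroup X] [NormedSpace ℂ X] {ι : Type} [Fintype ι]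
    {D : Set X} {a F g : ι → X → ℂ} {C κ : ℝ} (hC : 0 ≤ C)
    (hκ : κ * (Fintype.card ι * C) ≤ 1 / 2) (hF : ∀ i, DifferentiableOn ℂ (F i) D)
    (hg : ∀ i, DifferentiableOn ℂ (g i) D) (hgb : ∀ i, ∀ z ∈ D, ‖g i z‖ ≤ C)
    (hFa : ∀ i, ∀ z ∈ D, ‖F i z - a i z‖ ≤ κ) (hid : ∀ z ∈ D, ∑ i, a i z * g i z = 1) :
    ∃ g' : ι → X → ℂ, (∀ i, DifferentiableOn ℂ (g' i) D) ∧ (∀ i, ∀ z ∈ D, ‖g' i z‖ ≤ 2 * C) ∧
      ∀ z ∈ D, ∑ i, F i z * g' i z = 1 := by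
  set S : X → ℂ := fun z => ∑ i, F i z * g i z with hS
  have hSd : DifferentiableOn ℂ S D :=
    DifferentiableOn.fun_sum (fun i _ => (hF i).fun_mul (hg i))
  have hS1 : ∀ z ∈ D, 1 / 2 ≤ ‖S z‖ := by
    intro z hz
    have h1 : S z = 1 + ∑ i, (F i z - a i z) * g i z := by
      rw [← hid z hz, ← Finset.sum_add_distrib]
      refine Finset.sum_congr rfl (fun i _ => ?_)
      ring
    have h2 : ‖∑ i, (F i z - a i z) * g i z‖ ≤ 1 / 2 := by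
      refine (norm_sum_le _ _).trans ?_
      have h3 : ∀ i ∈ Finset.univ, ‖(F i z - a i z) * g i z‖ ≤ κ * C := by
        intro i _
        rw [norm_mul]
        have h4 := hFa i z hz
        have h5 := hgb i z hz
        have h6 : 0 ≤ κ := (norm_nonneg _).trans h4
        gcongr
      refine (Finset.sum_le_sum h3).trans ?_
      rw [Finset.sum_const, Finset.card_univ, nsmul_eq_mul]
      linarith
    have h3 : ‖(1 : ℂ)‖ ≤ ‖S z‖ + ‖∑ i, (F i z - a i z) * g i z‖ := by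
      have h4 : (1 : ℂ) = S z - ∑ i, (F i z - a i z) * g i z := by rw [h1]; ring
      calc ‖(1 : ℂ)‖ = ‖S z - ∑ i, (F i z - a i z) * g i z‖ := by rw [← h4]
        _ ≤ _ := norm_sub_le _ _
    rw [norm_one] at h3
    linarith
  have hS0 : ∀ z ∈ D, S z ≠ 0 := by
    intro z hz h0
    have := hS1 z hz
    rw [h0, norm_zero] at this
    norm_num at this
  refine ⟨fun i z => g i z * (S z)⁻¹, fun i => (hg i).fun_mul (hSd.fun_inv hS0), ?_, ?_⟩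
  · intro i z hz
    rw [norm_mul, norm_inv]
    have h1 := hgb i z hz
    have h2 : ‖S z‖⁻¹ ≤ 2 := by
      rw [show (2 : ℝ) = (1 / 2)⁻¹ by norm_num]
      exact inv_anti₀ (by norm_num) (hS1 z hz)
    calc ‖g i z‖ * ‖S z‖⁻¹ ≤ C * 2 := by gcongr
      _ = 2 * C := by ring
  · intro z hz
    have h1 : ∀ i, F i z * (g i z * (S z)⁻¹) = (F i z * g i z) * (S z)⁻¹ := fun i => by ring
    simp only [h1]
    rw [← Finset.sum_mul]
    exact mul_inv_cancel₀ (hS0 z hz)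

/-- transfer of the lower bound -/
theorem lower_transfer {ι : Type} [Fintype ι] {a F : ι → ℂ} {δ κ : ℝ}
    (hκ : κ * (4 * Fintype.card ι) ≤ δ) (ha : ∀ i, ‖a i‖ ≤ 1) (hF : ∀ i, ‖F i‖ ≤ 1)
    (hFa : ∀ i, ‖F i - a i‖ ≤ κ) (h : δ ≤ ∑ i, ‖F i‖ ^ 2) : δ / 2 ≤ ∑ i, ‖a i‖ ^ 2 := by
  have h1 : ∀ i ∈ Finset.univ, ‖F i‖ ^ 2 ≤ ‖a i‖ ^ 2 + 2 * κ := by
    intro i _
    have h2 : ‖F i‖ ≤ ‖a i‖ + κ := by
      have h3 := norm_add_le (F i - a i) (a i)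
      rw [sub_add_cancel] at h3
      have := hFa i
      linarith
    have h3 := ha i
    have h4 := hF i
    have h5 : 0 ≤ κ := (norm_nonneg _).trans (hFa i)
    nlinarith [norm_nonneg (F i), norm_nonneg (a i)]
  have h2 := Finset.sum_le_sum h1
  rw [Finset.sum_add_distrib, Finset.sum_const, Finset.card_univ, nsmul_eq_mul] at h2
  linarith

/-- The corona theorem with constant `C` and tolerance `κ` on `D ⊆ ℂ × ℂⁿ`: for all corona data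
`F i`, `H m`, `F₀` in the unit ball of `H^∞(D)` with lower bound `δ` which are `κ`-close to functions
`f i (z)`, `h m (y_{c m})`, `G (y)`, where `G` does not depend on the coordinates `y_{c m}` different
from `y_{j0}`. -/
def SplitCorona (N M : ℕ) (δ κ C : ℝ) {n : ℕ} (D : Set (ℂ × (Fin n → ℂ))) : Prop :=
  ∀ (f : Fin N → ℂ → ℂ) (c : Fin M → Fin n) (j0 : Fin n) (h : Fin M → ℂ → ℂ)
    (G : (Fin n → ℂ) → ℂ),
    (∀ i, DifferentiableOn ℂ (f i) ((fun p => p.1) '' D)) →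
    (∀ i, ∀ z ∈ (fun p => p.1) '' D, ‖f i z‖ ≤ 1) →
    (∀ m, DifferentiableOn ℂ (h m) ((fun p => p.2 (c m)) '' D)) →
    (∀ m, ∀ w ∈ (fun p => p.2 (c m)) '' D, ‖h m w‖ ≤ 1) →
    DifferentiableOn ℂ G ((fun p => p.2) '' D) → (∀ y ∈ (fun p => p.2) '' D, ‖G y‖ ≤ 1) →
    (∀ m, c m ≠ j0 → ∀ y ∈ (fun p => p.2) '' D, ∀ y' ∈ (fun p => p.2) '' D,
      (∀ l, l ≠ c m → y l = y' l) → G y = G y') →
  ∀ (F : Fin N → ℂ × (Fin n → ℂ) → ℂ) (H : Fin M → ℂ × (Fin n → ℂ) → ℂ)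
    (F₀ : ℂ × (Fin n → ℂ) → ℂ),
    (∀ i, DifferentiableOn ℂ (F i) D) → (∀ m, DifferentiableOn ℂ (H m) D) →
    DifferentiableOn ℂ F₀ D →
    (∀ i, ∀ p ∈ D, ‖F i p‖ ≤ 1) → (∀ m, ∀ p ∈ D, ‖H m p‖ ≤ 1) → (∀ p ∈ D, ‖F₀ p‖ ≤ 1) →
    (∀ i, ∀ p ∈ D, ‖F i p - f i p.1‖ ≤ κ) → (∀ m, ∀ p ∈ D, ‖H m p - h m (p.2 (c m))‖ ≤ κ) →
    (∀ p ∈ D, ‖F₀ p - G p.2‖ ≤ κ) →
    (∀ p ∈ D, δ ≤ ∑ i, ‖F i p‖ ^ 2 + ∑ m, ‖H m p‖ ^ 2 + ‖F₀ p‖ ^ 2) →
    ∃ (g : Fin N → ℂ × (Fin n → ℂ) → ℂ) (k : Fin M → ℂ × (Fin n → ℂ) → ℂ)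
      (g₀ : ℂ × (Fin n → ℂ) → ℂ),
      (∀ i, DifferentiableOn ℂ (g i) D) ∧ (∀ m, DifferentiableOn ℂ (k m) D) ∧
      DifferentiableOn ℂ g₀ D ∧
      (∀ i, ∀ p ∈ D, ‖g i p‖ ≤ C) ∧ (∀ m, ∀ p ∈ D, ‖k m p‖ ≤ C) ∧ (∀ p ∈ D, ‖g₀ p‖ ≤ C) ∧
      ∀ p ∈ D, ∑ i, F i p * g i p + ∑ m, H m p * k m p + F₀ p * g₀ p = 1

theorem fst_FD {n : ℕ} (U : Set ℂ) (φ : ℂ → ℝ) :
    (fun p : ℂ × (Fin n → ℂ) => p.1) '' FD U φ = U := by
  ext z
  constructor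
  · rintro ⟨p, hp, rfl⟩
    exact hp.1
  · intro hz
    exact ⟨(z, 0), ⟨hz, by simp⟩, rfl⟩

theorem snd_FD {n : ℕ} (U : Set ℂ) (φ : ℂ → ℝ) :
    (fun p : ℂ × (Fin n → ℂ) => p.2) '' FD U φ = pD U φ := by
  ext y
  constructor
  · rintro ⟨p, hp, rfl⟩
    exact ⟨p.1, hp.1, hp.2⟩
  · rintro ⟨z, hz, hy⟩
    exact ⟨(z, y), ⟨hz, hy⟩, rfl⟩

theorem coord_FD {n : ℕ} (U : Set ℂ) (φ : ℂ → ℝ) (j : Fin n) :
    (fun p : ℂ × (Fin n → ℂ) => p.2 j) '' FD U φ = cD U φ := by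
  ext w
  constructor
  · rintro ⟨p, hp, rfl⟩
    refine ⟨p.1, hp.1, ?_⟩
    have h0 : ∑ l, (Real.exp (φ p.1) * ‖p.2 l‖) ^ 2 < 1 := hp.2
    have h1 : (Real.exp (φ p.1) * ‖p.2 j‖) ^ 2 ≤ ∑ l, (Real.exp (φ p.1) * ‖p.2 l‖) ^ 2 :=
      Finset.single_le_sum (f := fun l => (Real.exp (φ p.1) * ‖p.2 l‖) ^ 2)
        (fun i _ => by positivity) (Finset.mem_univ j)
    have h2 : 0 ≤ Real.exp (φ p.1) * ‖p.2 j‖ := by positivity
    change Real.exp (φ p.1) * ‖p.2 j‖ < 1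
    nlinarith
  · rintro ⟨z, hz, hw⟩
    refine ⟨(z, Function.update 0 j w), ⟨hz, ?_⟩, by simp⟩
    have h0 : 0 ≤ Real.exp (φ z) * ‖w‖ := by positivity
    change ∑ l, (Real.exp (φ z) * ‖Function.update (0 : Fin n → ℂ) j w l‖) ^ 2 < 1
    rw [sq_sum_scale, upd_sum]
    simp only [Pi.zero_apply, norm_zero]
    have h1 : (∑ i ∈ Finset.univ.erase j, (0 : ℝ) ^ 2) = 0 := by simp
    rw [h1, add_zero, ← mul_pow]
    nlinarith

/-- **Hartogs domains with ball fibres**, perturbed data. -/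
theorem fib_main (N M : ℕ) {δ : ℝ} (hδ : 0 < δ) : ∃ κ : ℝ, 0 < κ ∧ ∃ C : ℝ,
    ∀ (n : ℕ) (U : Set ℂ) (φ : ℂ → ℝ), IsOpen U → IsSimplyConnected U → U.Nonempty → U ≠ univ →
    ContinuousOn φ U →
    (∃ A : ℂ → ℂ → ℂ, (∀ c ∈ U, DifferentiableOn ℂ (A c) U) ∧ (∀ c ∈ U, A c c = 1) ∧
        (∀ c ∈ U, ∀ z ∈ U, ‖A c z‖ ≤ Real.exp (φ z - φ c)) ∧
        ContinuousOn (fun q : ℂ × ℂ => A q.1 q.2) (U ×ˢ U)) →
    SplitCorona N M δ κ C (FD U φ : Set (ℂ × (Fin n → ℂ))) := by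
  obtain ⟨C0, hC0⟩ := fib N M (δ := δ / 2) (by positivity)
  set C : ℝ := max C0 0 with hC
  have hCn : 0 ≤ C := le_max_right _ _
  set L : ℝ := (Fintype.card (Fin N ⊕ Fin M ⊕ Unit) : ℝ) with hL
  have hLp : 0 < L := by
    rw [hL]
    have : 0 < Fintype.card (Fin N ⊕ Fin M ⊕ Unit) := Fintype.card_pos
    exact_mod_cast this
  set κ : ℝ := min (δ / (4 * L)) (1 / (2 * L * (C + 1))) with hκ
  have hκ0 : 0 < κ := lt_min (by positivity) (by positivity)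
  have hκ1 : κ * (4 * L) ≤ δ := by
    have h1 : κ ≤ δ / (4 * L) := min_le_left _ _
    rwa [le_div_iff₀ (by positivity)] at h1
  have hκ2 : κ * (L * C) ≤ 1 / 2 := by
    have h1 : κ ≤ 1 / (2 * L * (C + 1)) := min_le_right _ _
    rw [le_div_iff₀ (by positivity)] at h1
    nlinarith [mul_nonneg hκ0.le hLp.le]
  refine ⟨κ, hκ0, 2 * C, ?_⟩
  intro n U φ hU hUc hUn hUu hφ hA f c j0 h G hf hfb hh hhb hG hGb hGi F H F₀ hF hH hF0 hFb hHb hF0b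
    hFf hHh hFG hlow
  simp only [fst_FD, snd_FD, coord_FD] at hf hfb hh hhb hG hGb hGi
  set a : Fin N ⊕ Fin M ⊕ Unit → ℂ × (Fin n → ℂ) → ℂ :=
    Sum.elim (fun i p => f i p.1) (Sum.elim (fun m p => h m (p.2 (c m))) (fun _ p => G p.2)) with ha
  set FF : Fin N ⊕ Fin M ⊕ Unit → ℂ × (Fin n → ℂ) → ℂ :=
    Sum.elim F (Sum.elim H (fun _ => F₀)) with hFF
  have hproj : ∀ p ∈ (FD U φ : Set (ℂ × (Fin n → ℂ))), p.2 ∈ (pD U φ : Set (Fin n → ℂ)) :=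
    fun p hp => ⟨p.1, hp.1, hp.2⟩
  have hcoord : ∀ p ∈ (FD U φ : Set (ℂ × (Fin n → ℂ))), ∀ j, p.2 j ∈ cD U φ := by
    intro p hp j
    rw [← coord_FD (n := n) U φ j]
    exact ⟨p, hp, rfl⟩
  have hab : ∀ i, ∀ p ∈ (FD U φ : Set (ℂ × (Fin n → ℂ))), ‖a i p‖ ≤ 1 := by
    rintro (i | i | i) p hp
    · exact hfb i p.1 hp.1
    · exact hhb i _ (hcoord p hp _)
    · exact hGb _ (hproj p hp)
  have hFFb : ∀ i, ∀ p ∈ (FD U φ : Set (ℂ × (Fin n → ℂ))), ‖FF i p‖ ≤ 1 := by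
    rintro (i | i | i) p hp
    · exact hFb i p hp
    · exact hHb i p hp
    · exact hF0b p hp
  have hFa : ∀ i, ∀ p ∈ (FD U φ : Set (ℂ × (Fin n → ℂ))), ‖FF i p - a i p‖ ≤ κ := by
    rintro (i | i | i) p hp
    · exact hFf i p hp
    · exact hHh i p hp
    · exact hFG p hp
  have hFFd : ∀ i, DifferentiableOn ℂ (FF i) (FD U φ) := by
    rintro (i | i | i)
    · exact hF i
    · exact hH i
    · exact hF0
  have hsum : ∀ (b d : Fin N ⊕ Fin M ⊕ Unit → ℂ × (Fin n → ℂ) → ℂ) (p : ℂ × (Fin n → ℂ)),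
      ∑ i, b i p * d i p = ∑ i, b (Sum.inl i) p * d (Sum.inl i) p +
        ∑ m, b (Sum.inr (Sum.inl m)) p * d (Sum.inr (Sum.inl m)) p +
        b (Sum.inr (Sum.inr ())) p * d (Sum.inr (Sum.inr ())) p := by
    intro b d p
    rw [Fintype.sum_sum_type, Fintype.sum_sum_type]
    simp [add_assoc]
  have hsum2 : ∀ (b : Fin N ⊕ Fin M ⊕ Unit → ℂ × (Fin n → ℂ) → ℂ) (p : ℂ × (Fin n → ℂ)),
      ∑ i, ‖b i p‖ ^ 2 = ∑ i, ‖b (Sum.inl i) p‖ ^ 2 +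
        ∑ m, ‖b (Sum.inr (Sum.inl m)) p‖ ^ 2 + ‖b (Sum.inr (Sum.inr ())) p‖ ^ 2 := by
    intro b p
    rw [Fintype.sum_sum_type, Fintype.sum_sum_type]
    simp [add_assoc]
  obtain ⟨g, k, g₀, e1, e2, e3, e4, e5, e6, e7⟩ := hC0 n U φ hU hUc hUn hUu hφ hA f hf hfb c j0 h
    hh hhb G hG hGb hGi (by
      intro p hp
      have h1 := lower_transfer (ι := Fin N ⊕ Fin M ⊕ Unit) (a := fun i => a i p)
        (F := fun i => FF i p) (δ := δ) (κ := κ) hκ1 (fun i => hab i p hp)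
        (fun i => hFFb i p hp) (fun i => hFa i p hp) (by rw [hsum2]; exact hlow p hp)
      rw [hsum2] at h1
      exact h1)
  obtain ⟨g', q1, q2, q3⟩ := neumann (D := FD U φ) (a := a) (F := FF)
    (g := Sum.elim g (Sum.elim k (fun _ => g₀))) hCn hκ2 hFFd
    (by
      rintro (i | i | i)
      · exact e1 i
      · exact e2 i
      · exact e3)
    (by
      rintro (i | i | i) p hp
      · exact (e4 i p hp).trans (le_max_left _ _)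
      · exact (e5 i p hp).trans (le_max_left _ _)
      · exact (e6 p hp).trans (le_max_left _ _))
    hFa (by
      intro p hp
      rw [hsum]
      exact e7 p hp)
  refine ⟨fun i => g' (Sum.inl i), fun m => g' (Sum.inr (Sum.inl m)), g' (Sum.inr (Sum.inr ())),
    fun i => q1 _, fun m => q1 _, q1 _, fun i => q2 _, fun m => q2 _, q2 _, fun p hp => ?_⟩
  have h1 := q3 p hp
  rw [hsum] at h1
  exact h1

/-- The corona theorem with constant `C` and tolerance `κ` on the unit ball `B` of `ℂⁿ`: for all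
corona data `F i`, `F₀` in the unit ball of `H^∞(B)` with lower bound `δ` which are `κ`-close to
functions `f i (z_{c i})`, `G (z)`, where `G` does not depend on the coordinates `z_{c i}` different
from `z_{j0}`. -/
def BallCorona (N : ℕ) (δ κ C : ℝ) (n : ℕ) : Prop :=
  ∀ (f : Fin N → ℂ → ℂ) (c : Fin N → Fin n) (j0 : Fin n) (G : (Fin n → ℂ) → ℂ),
    (∀ i, DifferentiableOn ℂ (f i) (ball 0 1)) → (∀ i, ∀ z ∈ ball (0 : ℂ) 1, ‖f i z‖ ≤ 1) →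
    DifferentiableOn ℂ G (BJ (Fin n)) → (∀ z ∈ BJ (Fin n), ‖G z‖ ≤ 1) →
    (∀ i, c i ≠ j0 → ∀ z ∈ BJ (Fin n), ∀ z' ∈ BJ (Fin n),
      (∀ l, l ≠ c i → z l = z' l) → G z = G z') →
  ∀ (F : Fin N → (Fin n → ℂ) → ℂ) (F₀ : (Fin n → ℂ) → ℂ),
    (∀ i, DifferentiableOn ℂ (F i) (BJ (Fin n))) → DifferentiableOn ℂ F₀ (BJ (Fin n)) →
    (∀ i, ∀ z ∈ BJ (Fin n), ‖F i z‖ ≤ 1) → (∀ z ∈ BJ (Fin n), ‖F₀ z‖ ≤ 1) →
    (∀ i, ∀ z ∈ BJ (Fin n), ‖F i z - f i (z (c i))‖ ≤ κ) →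
    (∀ z ∈ BJ (Fin n), ‖F₀ z - G z‖ ≤ κ) →
    (∀ z ∈ BJ (Fin n), δ ≤ ∑ i, ‖F i z‖ ^ 2 + ‖F₀ z‖ ^ 2) →
    ∃ (g : Fin N → (Fin n → ℂ) → ℂ) (g₀ : (Fin n → ℂ) → ℂ),
      (∀ i, DifferentiableOn ℂ (g i) (BJ (Fin n))) ∧ DifferentiableOn ℂ g₀ (BJ (Fin n)) ∧
      (∀ i, ∀ z ∈ BJ (Fin n), ‖g i z‖ ≤ C) ∧ (∀ z ∈ BJ (Fin n), ‖g₀ z‖ ≤ C) ∧
      ∀ z ∈ BJ (Fin n), ∑ i, F i z * g i z + F₀ z * g₀ z = 1

/-- **Ball**, perturbed data. -/
theorem ball_main (N : ℕ) {δ : ℝ} (hδ : 0 < δ) : ∃ κ : ℝ, 0 < κ ∧ ∃ C : ℝ,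
    ∀ n : ℕ, BallCorona N δ κ C n := by
  obtain ⟨C, hCn, hC0⟩ := ballCor N N (δ / 2) (by positivity)
  set L : ℝ := (Fintype.card (Fin N ⊕ Unit) : ℝ) with hL
  have hLp : 0 < L := by
    rw [hL]
    have : 0 < Fintype.card (Fin N ⊕ Unit) := Fintype.card_pos
    exact_mod_cast this
  set κ : ℝ := min (δ / (4 * L)) (1 / (2 * L * (C + 1))) with hκ
  have hκ0 : 0 < κ := lt_min (by positivity) (by positivity)
  have hκ1 : κ * (4 * L) ≤ δ := by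
    have h1 : κ ≤ δ / (4 * L) := min_le_left _ _
    rwa [le_div_iff₀ (by positivity)] at h1
  have hκ2 : κ * (L * C) ≤ 1 / 2 := by
    have h1 : κ ≤ 1 / (2 * L * (C + 1)) := min_le_right _ _
    rw [le_div_iff₀ (by positivity)] at h1
    nlinarith [mul_nonneg hκ0.le hLp.le]
  refine ⟨κ, hκ0, 2 * C, ?_⟩
  intro n f c j0 G hf hfb hG hGb hGi F F₀ hF hF0 hFb hF0b hFf hFG hlow
  set a : Fin N ⊕ Unit → (Fin n → ℂ) → ℂ :=
    Sum.elim (fun i z => f i (z (c i))) (fun _ => G) with ha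
  set FF : Fin N ⊕ Unit → (Fin n → ℂ) → ℂ := Sum.elim F (fun _ => F₀) with hFF
  have hab : ∀ i, ∀ p ∈ BJ (Fin n), ‖a i p‖ ≤ 1 := by
    rintro (i | i) p hp
    · exact hfb i _ (coord_mem hp _)
    · exact hGb _ hp
  have hFFb : ∀ i, ∀ p ∈ BJ (Fin n), ‖FF i p‖ ≤ 1 := by
    rintro (i | i) p hp
    · exact hFb i p hp
    · exact hF0b p hp
  have hFa : ∀ i, ∀ p ∈ BJ (Fin n), ‖FF i p - a i p‖ ≤ κ := by
    rintro (i | i) p hp
    · exact hFf i p hp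
    · exact hFG p hp
  have hFFd : ∀ i, DifferentiableOn ℂ (FF i) (BJ (Fin n)) := by
    rintro (i | i)
    · exact hF i
    · exact hF0
  have hsum : ∀ (b d : Fin N ⊕ Unit → (Fin n → ℂ) → ℂ) (p : Fin n → ℂ),
      ∑ i, b i p * d i p = ∑ i, b (Sum.inl i) p * d (Sum.inl i) p +
        b (Sum.inr ()) p * d (Sum.inr ()) p := by
    intro b d p
    rw [Fintype.sum_sum_type]
    simp
  have hsum2 : ∀ (b : Fin N ⊕ Unit → (Fin n → ℂ) → ℂ) (p : Fin n → ℂ),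
      ∑ i, ‖b i p‖ ^ 2 = ∑ i, ‖b (Sum.inl i) p‖ ^ 2 + ‖b (Sum.inr ()) p‖ ^ 2 := by
    intro b p
    rw [Fintype.sum_sum_type]
    simp
  obtain ⟨g, g₀, e1, e3, e4, e6, e7⟩ := hC0 (Fin n) ((Finset.univ.image c).erase j0) j0 c f G
    (by
      refine (Finset.card_erase_le).trans (Finset.card_image_le.trans ?_)
      simp)
    (by
      intro m
      by_cases hm : c m = j0
      · exact Or.inr (Or.inl hm)
      · exact Or.inl (Finset.mem_erase.2 ⟨hm, Finset.mem_image_of_mem _ (Finset.mem_univ _)⟩))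
    hf hfb hG hGb
    (by
      intro j hj z hz z' hz' hzz
      obtain ⟨hj1, hj2⟩ := Finset.mem_erase.1 hj
      obtain ⟨m, -, rfl⟩ := Finset.mem_image.1 hj2
      exact hGi m hj1 _ hz _ hz' hzz)
    (by
      intro p hp
      have h1 := lower_transfer (ι := Fin N ⊕ Unit) (a := fun i => a i p)
        (F := fun i => FF i p) (δ := δ) (κ := κ) hκ1 (fun i => hab i p hp)
        (fun i => hFFb i p hp) (fun i => hFa i p hp) (by rw [hsum2]; exact hlow p hp)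
      rw [hsum2] at h1
      exact h1)
  obtain ⟨g', q1, q2, q3⟩ := neumann (D := BJ (Fin n)) (a := a) (F := FF)
    (g := Sum.elim g (fun _ => g₀)) hCn hκ2 hFFd
    (by
      rintro (i | i)
      · exact e1 i
      · exact e3)
    (by
      rintro (i | i) p hp
      · exact e4 i p hp
      · exact e6 p hp)
    hFa (by
      intro p hp
      rw [hsum]
      exact e7 p hp)
  refine ⟨fun i => g' (Sum.inl i), g' (Sum.inr ()),
    fun i => q1 _, q1 _, fun i => q2 _, q2 _, fun p hp => ?_⟩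
  have h1 := q3 p hp
  rw [hsum] at h1
  exact h1

end Pool.Agent.H788R3.Cor3
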