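import Mathlib
import Pool.Agent.H788R3.Cor3.Fin3

/-!
Functions with holomorphic supports: sums, convex functions, `log |h|`; the domains
`|z|² + exp (2 u (z)) |h (z)|² |y|² < 1`.
-/

set_option autoImplicit false
set_option linter.unusedSectionVars false

open MeasureTheory Metric Set Filter Topology Complex
open scoped ContDiff

namespace Pool.Agent.H788R3.Cor3

open Pool.Agent.H788R3.Cor2

/-- `φ` has a continuous family of supports of the form `φ c + log |A_c|`, `A_c` holomorphic. -/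
def Sup (U : Set ℂ) (φ : ℂ → ℝ) : Prop :=
  ∃ A : ℂ → ℂ → ℂ, (∀ c ∈ U, DifferentiableOn ℂ (A c) U) ∧ (∀ c ∈ U, A c c = 1) ∧
    (∀ c ∈ U, ∀ z ∈ U, ‖A c z‖ ≤ Real.exp (φ z - φ c)) ∧
    ContinuousOn (fun q : ℂ × ℂ => A q.1 q.2) (U ×ˢ U)

theorem Sup.add {U : Set ℂ} {φ ψ : ℂ → ℝ} (h : Sup U φ) (h' : Sup U ψ) :
    Sup U (fun z => φ z + ψ z) := by
  obtain ⟨A, a1, a2, a3, a4⟩ := h
  obtain ⟨B, b1, b2, b3, b4⟩ := h'
  refine ⟨fun c z => A c z * B c z, fun c hc => (a1 c hc).fun_mul (b1 c hc), ?_, ?_, a4.mul b4⟩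
  · intro c hc
    change A c c * B c c = 1
    rw [a2 c hc, b2 c hc, one_mul]
  · intro c hc z hz
    rw [norm_mul]
    calc ‖A c z‖ * ‖B c z‖ ≤ Real.exp (φ z - φ c) * Real.exp (ψ z - ψ c) :=
          mul_le_mul (a3 c hc z hz) (b3 c hc z hz) (norm_nonneg _) (Real.exp_pos _).le
      _ = Real.exp (φ z + ψ z - (φ c + ψ c)) := by rw [← Real.exp_add]; ring_nf

theorem Sup.hilb {U : Set ℂ} {r : ℕ} {h : Fin r → ℂ → ℂ} (hh : ∀ k, DifferentiableOn ℂ (h k) U)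
    (h0 : ∀ z ∈ U, ∃ k, h k z ≠ 0) :
    Sup U (fun z => 1 / 2 * Real.log (∑ k, ‖h k z‖ ^ 2)) := by
  have hS : ∀ z ∈ U, 0 < ∑ k, ‖h k z‖ ^ 2 := by
    intro z hz
    obtain ⟨k, hk⟩ := h0 z hz
    refine Finset.sum_pos' (fun i _ => by positivity) ⟨k, Finset.mem_univ _, ?_⟩
    have := norm_pos_iff.2 hk
    positivity
  refine ⟨fun c z => (∑ k, h k z * starRingEnd ℂ (h k c)) / ((∑ k, ‖h k c‖ ^ 2 : ℝ) : ℂ),
    ?_, ?_, ?_, ?_⟩
  · intro c hc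
    refine DifferentiableOn.div_const ?_ _
    exact DifferentiableOn.fun_sum (fun k _ => (hh k).mul_const _)
  · intro c hc
    have h1 : ((∑ k, ‖h k c‖ ^ 2 : ℝ) : ℂ) ≠ 0 := by exact_mod_cast (hS c hc).ne'
    have h2 : ∑ k, h k c * starRingEnd ℂ (h k c) = ((∑ k, ‖h k c‖ ^ 2 : ℝ) : ℂ) := by
      rw [Complex.ofReal_sum]
      refine Finset.sum_congr rfl (fun k _ => ?_)
      rw [Complex.mul_conj, Complex.normSq_eq_norm_sq]
    simp only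
    rw [h2, div_self h1]
  · intro c hc z hz
    have hc1 := hS c hc
    have hz1 := hS z hz
    have h1 : Real.exp (1 / 2 * Real.log (∑ k, ‖h k z‖ ^ 2) -
        1 / 2 * Real.log (∑ k, ‖h k c‖ ^ 2)) ^ 2 = (∑ k, ‖h k z‖ ^ 2) / ∑ k, ‖h k c‖ ^ 2 := by
      rw [← Real.exp_nat_mul]
      have h2 : ((2 : ℕ) : ℝ) * (1 / 2 * Real.log (∑ k, ‖h k z‖ ^ 2) -
          1 / 2 * Real.log (∑ k, ‖h k c‖ ^ 2)) =
          Real.log (∑ k, ‖h k z‖ ^ 2) - Real.log (∑ k, ‖h k c‖ ^ 2) := by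
        push_cast
        ring
      rw [h2, Real.exp_sub, Real.exp_log hz1, Real.exp_log hc1]
    refine le_of_sq_le_sq ?_ (Real.exp_pos _).le
    rw [h1, norm_div, Complex.norm_real, Real.norm_of_nonneg hc1.le, div_pow,
      div_le_div_iff₀ (by positivity) hc1]
    have h3 : ‖∑ k, h k z * starRingEnd ℂ (h k c)‖ ≤ ∑ k, ‖h k z‖ * ‖h k c‖ := by
      refine (norm_sum_le _ _).trans (le_of_eq ?_)
      exact Finset.sum_congr rfl (fun k _ => by rw [norm_mul, RCLike.norm_conj])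
    have h4 : (∑ k, ‖h k z‖ * ‖h k c‖) ^ 2 ≤ (∑ k, ‖h k z‖ ^ 2) * ∑ k, ‖h k c‖ ^ 2 :=
      Finset.sum_mul_sq_le_sq_mul_sq _ _ _
    have h5 : ‖∑ k, h k z * starRingEnd ℂ (h k c)‖ ^ 2 ≤
        (∑ k, ‖h k z‖ ^ 2) * ∑ k, ‖h k c‖ ^ 2 :=
      (pow_le_pow_left₀ (norm_nonneg _) h3 2).trans h4
    nlinarith
  · have hc1 : ∀ k, ContinuousOn (fun q : ℂ × ℂ => h k q.1) (U ×ˢ U) := fun k =>
      (hh k).continuousOn.comp continuousOn_fst (fun q hq => hq.1)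
    have hc2 : ∀ k, ContinuousOn (fun q : ℂ × ℂ => h k q.2) (U ×ˢ U) := fun k =>
      (hh k).continuousOn.comp continuousOn_snd (fun q hq => hq.2)
    refine ContinuousOn.div ?_ ?_ ?_
    · refine continuousOn_finsetSum _ (fun k _ => ?_)
      exact (hc2 k).mul (Complex.continuous_conj.comp_continuousOn (hc1 k))
    · refine Complex.continuous_ofReal.comp_continuousOn ?_
      exact continuousOn_finsetSum _ (fun k _ => (hc1 k).norm.pow 2)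
    · intro q hq
      exact_mod_cast (hS q.1 hq.1).ne'

theorem hilb_cont {U : Set ℂ} {r : ℕ} {h : Fin r → ℂ → ℂ} (hh : ∀ k, DifferentiableOn ℂ (h k) U)
    (h0 : ∀ z ∈ U, ∃ k, h k z ≠ 0) :
    ContinuousOn (fun z => 1 / 2 * Real.log (∑ k, ‖h k z‖ ^ 2)) U := by
  refine continuousOn_const.mul (ContinuousOn.log ?_ ?_)
  · exact continuousOn_finsetSum _ (fun k _ => (hh k).continuousOn.norm.pow 2)
  · intro z hz
    obtain ⟨k, hk⟩ := h0 z hz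
    refine (Finset.sum_pos' (fun i _ => by positivity) ⟨k, Finset.mem_univ _, ?_⟩).ne'
    have := norm_pos_iff.2 hk
    positivity

/-- the domain `|z|² + exp (2 u (z)) ∑ |h_k (z)|² |y|² < 1` -/
def Duh {n r : ℕ} (u : ℂ → ℝ) (h : Fin r → ℂ → ℂ) : Set (ℂ × (Fin n → ℂ)) :=
  {p | ‖p.1‖ < 1 ∧
    ‖p.1‖ ^ 2 + Real.exp (2 * u p.1) * (∑ k, ‖h k p.1‖ ^ 2) * ∑ j, ‖p.2 j‖ ^ 2 < 1}

theorem Duh_eq {n r : ℕ} (u : ℂ → ℝ) (h : Fin r → ℂ → ℂ)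
    (h0 : ∀ z ∈ ball (0 : ℂ) 1, ∃ k, h k z ≠ 0) :
    (Duh u h : Set (ℂ × (Fin n → ℂ))) = FD (ball 0 1) (fun z => u z +
      1 / 2 * Real.log (∑ k, ‖h k z‖ ^ 2) + -(1 / 2) * Real.log (1 - ‖z‖ ^ 2)) := by
  ext ⟨z, y⟩
  have key : z ∈ ball (0 : ℂ) 1 → (∑ j, (Real.exp (u z +
      1 / 2 * Real.log (∑ k, ‖h k z‖ ^ 2) + -(1 / 2) * Real.log (1 - ‖z‖ ^ 2)) * ‖y j‖) ^ 2 < 1 ↔
      ‖z‖ ^ 2 + Real.exp (2 * u z) * (∑ k, ‖h k z‖ ^ 2) * ∑ j, ‖y j‖ ^ 2 < 1) := by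
    intro hz
    have h1 := lg_pos hz
    have hS : 0 < ∑ k, ‖h k z‖ ^ 2 := by
      obtain ⟨k, hk⟩ := h0 z hz
      refine Finset.sum_pos' (fun i _ => by positivity) ⟨k, Finset.mem_univ _, ?_⟩
      have := norm_pos_iff.2 hk
      positivity
    rw [sq_sum_scale, ← Real.exp_nat_mul]
    have h2 : ((2 : ℕ) : ℝ) * (u z + 1 / 2 * Real.log (∑ k, ‖h k z‖ ^ 2) +
        -(1 / 2) * Real.log (1 - ‖z‖ ^ 2)) =
        2 * u z + Real.log (∑ k, ‖h k z‖ ^ 2) - Real.log (1 - ‖z‖ ^ 2) := by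
      push_cast
      ring
    rw [h2, Real.exp_sub, Real.exp_add, Real.exp_log hS, Real.exp_log h1, div_mul_eq_mul_div,
      div_lt_one h1]
    constructor <;> intro h <;> linarith
  constructor
  · rintro ⟨hz, h⟩
    have hz' : z ∈ ball (0 : ℂ) 1 := by rw [mem_ball_zero_iff]; exact hz
    exact ⟨hz', (key hz').2 h⟩
  · rintro ⟨hz, h⟩
    have hz' : ‖z‖ < 1 := by
      have : z ∈ ball (0 : ℂ) 1 := hz
      rwa [mem_ball_zero_iff] at this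
    exact ⟨hz', (key hz).1 h⟩

theorem Duh_eq' {n r : ℕ} (u : ℂ → ℝ) (h : Fin r → ℂ → ℂ) :
    (Duh u h : Set (ℂ × (Fin n → ℂ))) =
      {p | ‖p.1‖ < 1 ∧
        ‖p.1‖ ^ 2 + Real.exp (2 * u p.1) * (∑ k, ‖h k p.1‖ ^ 2) * ∑ j, ‖p.2 j‖ ^ 2 < 1} := rfl

end Pool.Agent.H788R3.Cor3
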